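import Pool.Agent.NH10.FH.Mid

/-! # The averages of the sharp windows -/

set_option autoImplicit false
set_option maxHeartbeats 4000000

open Filter Topology Set MeasureTheory

namespace Pool.Agent.NH10.FH

open Pool.Agent.NH10.SV
open Pool.Agent.Y749.Rig hiding PT
open Pool.Agent.NH10.GM

variable {Yf : ℝ → ℝ}

lemma Js_le_D (RH : RiemannHypothesis) (hE : EFp Yf) {a b δ : ℝ} (hδ : 0 < δ) (ha : 1 ≤ a)
    (hab : a ≤ b) {η ε : ℝ} (hη : 0 < η) (hη1 : η ≤ 1) (hε : 0 < ε) : ∀ᶠ T in atTop,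
      Js T a b ≤ (1 + 3 * η) * (∫ α in a..(b + δ), DD Yf T α) + 3 * ε := by
  filter_upwards [Js_Wn RH (show 0 < a by linarith) hab hη hε,
    compare_intS hE (show 3 / 4 ≤ a by linarith) hab hη hε, th_small hδ, eventually_ge_atTop 10]
    with T t1 t2 t3 hT
  have h1 : (∫ α in (a + th T)..(b + th T), Ds T (Pf T) (Yf (Pf T)) α) ≤
      ∫ α in a..(b + δ), DD Yf T α :=
    intervalIntegral.integral_mono_interval (by linarith) (by linarith) (by linarith)
      (ae_of_all _ fun α => DD_nonneg Yf (by linarith) α)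
      ((DD_cont Yf T).intervalIntegrable _ _)
  obtain ⟨I, hI⟩ : ∃ I : ℝ, I = ∫ α in a..(b + δ), DD Yf T α := ⟨_, rfl⟩
  have hI0 : 0 ≤ I := by
    rw [hI]
    exact intervalIntegral.integral_nonneg (by linarith) fun α _ => DD_nonneg Yf (by linarith) α
  rw [← hI] at h1 ⊢
  have h5 : (1 + η) * (∫ α in a..b, Wn T (Pf T) α) ≤ (1 + η) * ((1 + η) * I + ε) :=
    mul_le_mul_of_nonneg_left (t2.2.trans (by
      have := mul_le_mul_of_nonneg_left h1 (show 0 ≤ 1 + η by linarith)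
      linarith)) (by linarith)
  have h6 : (1 + η) * (1 + η) * I ≤ (1 + 3 * η) * I :=
    mul_le_mul_of_nonneg_right (by nlinarith) hI0
  have h7 : (1 + η) * ε ≤ 2 * ε := mul_le_mul_of_nonneg_right (by linarith) hε.le
  linarith [t1.1]

lemma D_le_Js (RH : RiemannHypothesis) (hE : EFp Yf) {a b δ : ℝ} (hδ : 0 < δ) (ha : 1 ≤ a)
    (hab : a + δ ≤ b) {η ε : ℝ} (hη : 0 < η) (hη1 : η ≤ 1) (hε : 0 < ε) : ∀ᶠ T in atTop,
      (∫ α in (a + δ)..b, DD Yf T α) ≤ (1 + 3 * η) * Js T a b + 3 * ε := by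
  filter_upwards [Js_Wn RH (show 0 < a by linarith) (show a ≤ b by linarith) hη hε,
    compare_intS hE (show 3 / 4 ≤ a by linarith) (show a ≤ b by linarith) hη hε,
    th_small hδ, eventually_ge_atTop 10] with T t1 t2 t3 hT
  have hT1 : 1 < T := by linarith
  have h1 : (∫ α in (a + δ)..b, DD Yf T α) ≤
      ∫ α in (a + th T)..(b + th T), Ds T (Pf T) (Yf (Pf T)) α :=
    intervalIntegral.integral_mono_interval (by linarith) (by linarith) (by linarith)
      (ae_of_all _ fun α => DD_nonneg Yf (by linarith) α)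
      ((DD_cont Yf T).intervalIntegrable _ _)
  obtain ⟨J, hJ⟩ : ∃ J : ℝ, J = Js T a b := ⟨_, rfl⟩
  have hJ0 : 0 ≤ J := by
    rw [hJ, Js_JQ hT1 (by linarith)]
    exact JQ_nonneg hT1 (mul_le_mul_of_nonneg_right (by linarith) (Real.log_pos hT1).le)
  rw [← hJ] at t1 ⊢
  have h5 : (1 + η) * (∫ α in a..b, Wn T (Pf T) α) ≤ (1 + η) * ((1 + η) * J + ε) :=
    mul_le_mul_of_nonneg_left t1.2 (by linarith)
  have h6 : (1 + η) * (1 + η) * J ≤ (1 + 3 * η) * J :=
    mul_le_mul_of_nonneg_right (by nlinarith) hJ0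
  have h7 : (1 + η) * ε ≤ 2 * ε := mul_le_mul_of_nonneg_right (by linarith) hε.le
  linarith [t2.1]

/-- **the averages of the sharp windows** -/
theorem av_Js (RH : RiemannHypothesis) (hF : S_FORM) {c : ℝ} (hc : 0 < c) (hc1 : c < 1)
    (H : ∀ a b : ℝ, 1 ≤ a → a < b → ∀ ε : ℝ, 0 < ε → ∀ᶠ T in atTop, W c T a b ≤ b - a + ε)
    {a b : ℝ} (ha : 1 ≤ a) (hab : a < b) :
    Tendsto (fun T => av c T fun n => Js n a b) atTop (𝓝 (b - a)) := by
  obtain ⟨Yf, hY, hE⟩ := EFf RH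
  have hE' : EFp Yf := hE
  have hW : ∀ p q : ℝ, 1 ≤ p → p < q → Tendsto (fun T => av c T fun n => ∫ α in p..q, DD Yf n α)
      atTop (𝓝 (q - p)) := by
    intro p q hp hpq
    have h1 := win_lim (D := avf c (DD Yf)) (c := 1) one_pos
      (Eventually.of_forall fun T => avf_cont (DD_cont Yf) T)
      ((ev_av hc (eventually_ge_atTop 1)).mono fun T hT α =>
        div_nonneg (Finset.sum_nonneg fun n hn => DD_nonneg Yf (hT n hn) α) (Nat.cast_nonneg _))
      (fun y hy => by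
        rw [one_mul]
        exact tents RH hF hY hE' hc hc1 H hy) (show 0 < p by linarith) hpq
    have e : 1 * ∫ α in p..q, mn α = q - p := by
      rw [one_mul, mn_one hp hpq.le]
    rw [e] at h1
    refine h1.congr fun T => ?_
    exact avf_int (DD_cont Yf) T p q
  rw [Metric.tendsto_nhds]
  intro ε hε
  obtain ⟨δ, hδ⟩ : ∃ δ : ℝ, δ = min (ε / 8) ((b - a) / 2) := ⟨_, rfl⟩
  have hδ0 : 0 < δ := by rw [hδ]; exact lt_min (by linarith) (by linarith)
  have hδ1 : δ ≤ ε / 8 := by rw [hδ]; exact min_le_left _ _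
  have hδ2 : δ ≤ (b - a) / 2 := by rw [hδ]; exact min_le_right _ _
  obtain ⟨M, hM⟩ : ∃ M : ℝ, M = b - a + ε + 1 := ⟨_, rfl⟩
  have hM0 : 0 < M := by rw [hM]; linarith
  obtain ⟨η, hη⟩ : ∃ η : ℝ, η = min 1 (ε / (24 * M)) := ⟨_, rfl⟩
  have hη0 : 0 < η := by rw [hη]; exact lt_min one_pos (by positivity)
  have hη1 : η ≤ 1 := by rw [hη]; exact min_le_left _ _
  have hη2 : 3 * η * M ≤ ε / 8 := by
    have : η ≤ ε / (24 * M) := by rw [hη]; exact min_le_right _ _
    rw [le_div_iff₀ (by positivity)] at this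
    linarith
  filter_upwards [ev_av hc (Js_le_D RH hE' hδ0 ha hab.le hη0 hη1 (show 0 < ε / 24 by linarith)),
    ev_av hc (D_le_Js RH hE' hδ0 ha (show a + δ ≤ b by linarith) hη0 hη1
      (show 0 < ε / 24 by linarith)), II_pos hc hc1,
    (hW a (b + δ) ha (by linarith)).eventually
      (gt_mem_nhds (show b + δ - a < b + δ - a + ε / 8 by linarith)),
    (hW (a + δ) b (by linarith) (by linarith)).eventually
      (lt_mem_nhds (show b - (a + δ) - ε / 8 < b - (a + δ) by linarith))]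
    with T t1 t2 hp t3 t4
  have h1 := av_mono (f := fun n => Js n a b)
    (g := fun n => (1 + 3 * η) * (∫ α in a..(b + δ), DD Yf n α) + 3 * (ε / 24)) t1
  have h2 := av_mono (f := fun n => ∫ α in (a + δ)..b, DD Yf n α)
    (g := fun n => (1 + 3 * η) * Js n a b + 3 * (ε / 24)) t2
  rw [av_add, av_mul, av_const hp] at h1 h2
  obtain ⟨A, hA⟩ : ∃ A : ℝ, A = av c T fun n => Js n a b := ⟨_, rfl⟩
  obtain ⟨D1, hD1⟩ : ∃ D1 : ℝ, D1 = av c T fun n => ∫ α in a..(b + δ), DD Yf n α := ⟨_, rfl⟩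
  obtain ⟨D2, hD2⟩ : ∃ D2 : ℝ, D2 = av c T fun n => ∫ α in (a + δ)..b, DD Yf n α := ⟨_, rfl⟩
  rw [← hA] at h1 h2 ⊢
  rw [← hD1] at h1 t3
  rw [← hD2] at h2 t4
  have u1 : A ≤ b - a + ε / 2 := by
    have h5 : 3 * η * D1 ≤ 3 * η * M := by
      refine mul_le_mul_of_nonneg_left ?_ (by positivity)
      rw [hM]
      linarith
    linarith
  have u2 : b - a - ε / 2 ≤ A := by
    have h5 : 3 * η * A ≤ 3 * η * M := by
      refine mul_le_mul_of_nonneg_left ?_ (by positivity)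
      rw [hM]
      linarith
    linarith
  rw [Real.dist_eq, abs_lt]
  constructor <;> linarith

end Pool.Agent.NH10.FH
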