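import Pool.Agent.NH10.FH.Slow

/-! # Averages over the integers in `[cT, T]` -/

set_option autoImplicit false
set_option maxHeartbeats 4000000

open Filter Topology Set MeasureTheory

namespace Pool.Agent.NH10.FH

open Pool.Agent.NH10.SV
open Pool.Agent.Y749.Rig hiding PT
open Pool.Agent.NH10.GM

/-- the average -/
noncomputable def av (c T : ℝ) (f : ℕ → ℝ) : ℝ := (∑ n ∈ II c T, f n) / ((II c T).card : ℝ)

lemma II_mem {c T : ℝ} (hT : 0 ≤ T) {n : ℕ} (hn : n ∈ II c T) :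
    c * T + 1 ≤ n ∧ (n : ℝ) ≤ T - 1 := by
  unfold II at hn
  rw [Finset.mem_Ioc] at hn
  constructor
  · have h1 : ⌊c * T⌋₊ + 2 ≤ n := by omega
    have h2 := (Nat.lt_floor_add_one (c * T)).le
    have h3 : ((⌊c * T⌋₊ + 2 : ℕ) : ℝ) ≤ n := by exact_mod_cast h1
    push_cast at h3
    linarith
  · have h1 : n + 1 ≤ ⌊T⌋₊ := by omega
    have h2 := Nat.floor_le hT
    have h3 : ((n + 1 : ℕ) : ℝ) ≤ ⌊T⌋₊ := by exact_mod_cast h1
    push_cast at h3
    linarith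

lemma II_card {c T : ℝ} (hc : 0 < c) (hc1 : c < 1) (hT : 10 ≤ (1 - c) * T) :
    (1 - c) * T - 3 ≤ ((II c T).card : ℝ) ∧ ((II c T).card : ℝ) ≤ (1 - c) * T := by
  have hT0 : 0 < T := by
    by_contra h
    push Not at h
    nlinarith
  have hcT : 0 ≤ c * T := by positivity
  unfold II
  rw [Nat.card_Ioc]
  have a1 := Nat.floor_le hcT
  have a2 := (Nat.lt_floor_add_one (c * T)).le
  have b1 := Nat.floor_le hT0.le
  have b2 := (Nat.lt_floor_add_one T).le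
  have h1 : ⌊c * T⌋₊ + 2 ≤ ⌊T⌋₊ := by
    have : (⌊c * T⌋₊ : ℝ) + 2 ≤ ⌊T⌋₊ := by linarith
    exact_mod_cast this
  have h2 : ((⌊T⌋₊ - 1 - (⌊c * T⌋₊ + 1) : ℕ) : ℝ) = (⌊T⌋₊ : ℝ) - ⌊c * T⌋₊ - 2 := by
    have : ⌊T⌋₊ - 1 - (⌊c * T⌋₊ + 1) = ⌊T⌋₊ - (⌊c * T⌋₊ + 2) := by omega
    rw [this, Nat.cast_sub h1]
    push_cast
    ring
  rw [h2]
  constructor <;> linarith

lemma lin_top {k : ℝ} (hk : 0 < k) : Tendsto (fun T : ℝ => k * T) atTop atTop :=
  tendsto_id.const_mul_atTop hk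

lemma II_pos {c : ℝ} (hc : 0 < c) (hc1 : c < 1) : ∀ᶠ T : ℝ in atTop, 0 < ((II c T).card : ℝ) := by
  filter_upwards [(lin_top (show 0 < 1 - c by linarith)).eventually_ge_atTop 10] with T hT
  have := (II_card hc hc1 hT).1
  linarith

lemma av_mono {c T : ℝ} {f g : ℕ → ℝ} (h : ∀ n ∈ II c T, f n ≤ g n) : av c T f ≤ av c T g :=
  div_le_div_of_nonneg_right (Finset.sum_le_sum h) (Nat.cast_nonneg _)

lemma av_const {c T : ℝ} (h : 0 < ((II c T).card : ℝ)) (K : ℝ) : av c T (fun _ => K) = K := by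
  unfold av
  rw [Finset.sum_const, nsmul_eq_mul]
  field_simp

lemma av_add (c T : ℝ) (f g : ℕ → ℝ) : av c T (fun n => f n + g n) = av c T f + av c T g := by
  unfold av
  rw [Finset.sum_add_distrib, add_div]

lemma av_mul (c T k : ℝ) (f : ℕ → ℝ) : av c T (fun n => k * f n) = k * av c T f := by
  unfold av
  rw [← Finset.mul_sum, mul_div_assoc]

/-- facts which hold for all large numbers hold for all the indices -/
lemma ev_av {c : ℝ} (hc : 0 < c) {P : ℝ → Prop} (h : ∀ᶠ x in atTop, P x) :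
    ∀ᶠ T in atTop, ∀ n ∈ II c T, P n := by
  rw [eventually_atTop] at h
  obtain ⟨N, hN⟩ := h
  filter_upwards [(lin_top hc).eventually_ge_atTop N, eventually_ge_atTop 0] with T hT hT0 n hn
  exact hN n (by linarith [(II_mem hT0 hn).1])

lemma av_le {c : ℝ} (hc : 0 < c) (hc1 : c < 1) {f : ℝ → ℝ} {K : ℝ} (h : ∀ᶠ x in atTop, f x ≤ K) :
    ∀ᶠ T in atTop, av c T (fun n => f n) ≤ K := by
  filter_upwards [ev_av hc h, II_pos hc hc1] with T hT hp
  exact (av_mono hT).trans (av_const hp K).le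

lemma le_av {c : ℝ} (hc : 0 < c) (hc1 : c < 1) {f : ℝ → ℝ} {K : ℝ} (h : ∀ᶠ x in atTop, K ≤ f x) :
    ∀ᶠ T in atTop, K ≤ av c T (fun n => f n) := by
  filter_upwards [ev_av hc h, II_pos hc hc1] with T hT hp
  exact (av_const hp K).ge.trans (av_mono hT)

lemma av_lim {c : ℝ} (hc : 0 < c) (hc1 : c < 1) {f : ℝ → ℝ} {ℓ : ℝ}
    (h : Tendsto f atTop (𝓝 ℓ)) : Tendsto (fun T => av c T fun n => f n) atTop (𝓝 ℓ) := by
  rw [Metric.tendsto_nhds] at h ⊢
  intro ε hε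
  have h1 : ∀ᶠ x in atTop, f x ≤ ℓ + ε / 2 := (h (ε / 2) (by linarith)).mono fun x hx => by
    rw [Real.dist_eq] at hx
    linarith [(abs_lt.1 hx).2]
  have h2 : ∀ᶠ x in atTop, ℓ - ε / 2 ≤ f x := (h (ε / 2) (by linarith)).mono fun x hx => by
    rw [Real.dist_eq] at hx
    linarith [(abs_lt.1 hx).1]
  filter_upwards [av_le hc hc1 h1, le_av hc hc1 h2] with T t1 t2
  rw [Real.dist_eq, abs_lt]
  constructor <;> linarith

/-! ### averages of functions -/

/-- the average of functions -/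
noncomputable def avf (c : ℝ) (D : ℝ → ℝ → ℝ) (T α : ℝ) : ℝ :=
  (∑ n ∈ II c T, D n α) / ((II c T).card : ℝ)

lemma avf_cont {c : ℝ} {D : ℝ → ℝ → ℝ} (hD : ∀ x, Continuous (D x)) (T : ℝ) :
    Continuous (avf c D T) := by
  unfold avf
  exact (continuous_finsetSum _ fun (n : ℕ) _ => hD (n : ℝ)).div_const _

lemma avf_int {c : ℝ} {D : ℝ → ℝ → ℝ} (hD : ∀ x, Continuous (D x)) (T a b : ℝ) :
    ∫ α in a..b, avf c D T α = av c T fun n => ∫ α in a..b, D n α := by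
  unfold avf av
  rw [intervalIntegral.integral_div, intervalIntegral.integral_finsetSum fun (n : ℕ) _ =>
    (hD (n : ℝ)).intervalIntegrable _ _]

lemma avf_Jt {c : ℝ} {D : ℝ → ℝ → ℝ} (hD : ∀ x, Continuous (D x)) (T h : ℝ) :
    Jt (avf c D T) h = av c T fun n => Jt (D n) h := by
  have e1 : ∀ α, (h - α) * avf c D T α = avf c (fun x α => (h - α) * D x α) T α := by
    intro α
    exact (av_mul c T (h - α) fun n => D n α).symm
  unfold Jt
  simp_rw [e1]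
  rw [avf_int (fun x => by
    have := hD x
    fun_prop), ← av_mul]

end Pool.Agent.NH10.FH
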