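import Pool.Agent.NH10.FH.Phi

/-! # From the upper bounds for one `c` to the Riemann hypothesis and the pair correlation asymptotic -/

set_option autoImplicit false
set_option maxHeartbeats 4000000

open Filter Topology Set MeasureTheory

namespace Pool.Agent.NH10.FH

open Pool.Agent.NH10.SV

/-- **the upper bounds for one `c` imply the asymptotic formula for the relative windows** -/
theorem back (hF : S_FORM) (hR : S_RHW) (hD : S_DEAVG) {c : ℝ} (hc : 0 < c) (hc1 : c < 1)
    (H : ∀ a b : ℝ, 1 ≤ a → a < b → ∀ ε : ℝ, 0 < ε → ∀ᶠ T in atTop, W c T a b ≤ b - a + ε) :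
    ∀ a b : ℝ, 1 ≤ a → a < b → Tendsto (fun T => Js T a b) atTop (𝓝 (b - a)) := by
  have RH : RiemannHypothesis := by
    refine hR hF c hc hc1 fun B hB => ?_
    obtain ⟨T₀, hT₀⟩ := eventually_atTop.1 (H 1 B le_rfl hB 1 one_pos)
    exact ⟨B - 1 + 1, T₀, hT₀⟩
  have h1 : ∀ b : ℝ, 1 < b → Tendsto (fun T => Js T 1 b) atTop (𝓝 (b - 1)) := fun b hb =>
    Js_of_av RH hD hc hc1 (fun b' hb' => av_Js RH hF hc hc1 H le_rfl hb') hb
  intro a b ha hab
  rcases eq_or_lt_of_le ha with h | h
  · rw [← h]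
    exact h1 b (by linarith)
  · have h2 := (h1 b (by linarith)).sub (h1 a h)
    have e : b - 1 - (a - 1) = b - a := by ring
    rw [e] at h2
    refine h2.congr' ?_
    filter_upwards [eventually_gt_atTop 1] with T hT
    rw [Js_sub hT (show 0 ≤ a by linarith) hab.le, Js_sub hT (show (0 : ℝ) ≤ 1 by norm_num) h.le,
      Js_sub hT (show (0 : ℝ) ≤ 1 by norm_num) (show 1 ≤ b by linarith)]
    ring

end Pool.Agent.NH10.FH
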