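import Pool.Agent.NH10.FH.Avg

/-! # Averages over the integers in `[c(T) T, T]`, `c(T) → 0` slowly -/

set_option autoImplicit false
set_option maxHeartbeats 4000000

open Filter Topology Set MeasureTheory

namespace Pool.Agent.NH10.FH

open Pool.Agent.NH10.SV
open Pool.Agent.Y749.Rig hiding PT
open Pool.Agent.NH10.GM

/-- slowly varying starting points -/
structure Ok (cf : ℝ → ℝ) : Prop where
  pos : ∀ᶠ T in atTop, 0 < cf T
  half : ∀ᶠ T in atTop, cf T ≤ 1 / 2
  rat : Tendsto (fun T => Real.log (cf T * T) / Real.log T) atTop (𝓝 1)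

namespace Ok

variable {cf : ℝ → ℝ}

lemma ev_log (hc : Ok cf) {κ : ℝ} (hκ : 0 < κ) :
    ∀ᶠ T : ℝ in atTop, (1 - κ) * Real.log T ≤ Real.log (cf T * T) := by
  filter_upwards [hc.rat.eventually (lt_mem_nhds (show 1 - κ < 1 by linarith)),
    eventually_gt_atTop 1] with T h2 hT
  have hL := Real.log_pos hT
  rw [lt_div_iff₀ hL] at h2
  exact h2.le

lemma top (hc : Ok cf) : Tendsto (fun T => cf T * T) atTop atTop := by
  have h1 : Tendsto (fun T : ℝ => Real.exp ((1 / 2) * Real.log T)) atTop atTop :=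
    Real.tendsto_exp_atTop.comp (Real.tendsto_log_atTop.const_mul_atTop (by norm_num))
  refine tendsto_atTop_mono' _ ?_ h1
  filter_upwards [hc.ev_log (κ := 1 / 2) (by norm_num), hc.pos, eventually_gt_atTop 0]
    with T h2 h3 hT
  have h4 : 0 < cf T * T := mul_pos h3 hT
  rw [← Real.exp_log h4]
  exact Real.exp_le_exp.2 (by linarith)

lemma top' (hc : Ok cf) : Tendsto (fun T => (1 - cf T) * T) atTop atTop := by
  have h1 : Tendsto (fun T : ℝ => (1 / 2) * T) atTop atTop :=
    tendsto_id.const_mul_atTop (by norm_num)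
  refine tendsto_atTop_mono' _ ?_ h1
  filter_upwards [hc.half, eventually_gt_atTop 0] with T h2 hT
  exact mul_le_mul_of_nonneg_right (by linarith) hT.le

lemma card (hc : Ok cf) : ∀ᶠ T in atTop, (1 - cf T) * T - 3 ≤ ((II (cf T) T).card : ℝ) ∧
    ((II (cf T) T).card : ℝ) ≤ (1 - cf T) * T := by
  filter_upwards [hc.pos, hc.half, hc.top'.eventually_ge_atTop 10] with T h1 h2 h3
  exact II_card h1 (by linarith) h3

lemma cpos (hc : Ok cf) : ∀ᶠ T : ℝ in atTop, 0 < ((II (cf T) T).card : ℝ) := by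
  filter_upwards [hc.top'.eventually_ge_atTop 10, hc.card] with T hT h1
  linarith [h1.1]

/-- facts which hold for all large numbers hold for all the indices -/
lemma ev_av (hc : Ok cf) {P : ℝ → Prop} (h : ∀ᶠ x in atTop, P x) :
    ∀ᶠ T in atTop, ∀ n ∈ II (cf T) T, P n := by
  rw [eventually_atTop] at h
  obtain ⟨N, hN⟩ := h
  filter_upwards [hc.top.eventually_ge_atTop N, eventually_ge_atTop 0] with T hT hT0 n hn
  exact hN n (by linarith [(II_mem hT0 hn).1])

lemma av_le (hc : Ok cf) {f : ℝ → ℝ} {K : ℝ} (h : ∀ᶠ x in atTop, f x ≤ K) :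
    ∀ᶠ T in atTop, av (cf T) T (fun n => f n) ≤ K := by
  filter_upwards [hc.ev_av h, hc.cpos] with T hT hp
  exact (av_mono hT).trans (av_const hp K).le

lemma le_av (hc : Ok cf) {f : ℝ → ℝ} {K : ℝ} (h : ∀ᶠ x in atTop, K ≤ f x) :
    ∀ᶠ T in atTop, K ≤ av (cf T) T (fun n => f n) := by
  filter_upwards [hc.ev_av h, hc.cpos] with T hT hp
  exact (av_const hp K).ge.trans (av_mono hT)

lemma av_lim (hc : Ok cf) {f : ℝ → ℝ} {ℓ : ℝ}
    (h : Tendsto f atTop (𝓝 ℓ)) : Tendsto (fun T => av (cf T) T fun n => f n) atTop (𝓝 ℓ) := by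
  rw [Metric.tendsto_nhds] at h ⊢
  intro ε hε
  have h1 : ∀ᶠ x in atTop, f x ≤ ℓ + ε / 2 := (h (ε / 2) (by linarith)).mono fun x hx => by
    rw [Real.dist_eq] at hx
    linarith [(abs_lt.1 hx).2]
  have h2 : ∀ᶠ x in atTop, ℓ - ε / 2 ≤ f x := (h (ε / 2) (by linarith)).mono fun x hx => by
    rw [Real.dist_eq] at hx
    linarith [(abs_lt.1 hx).1]
  filter_upwards [hc.av_le h1, hc.le_av h2] with T t1 t2
  rw [Real.dist_eq, abs_lt]
  constructor <;> linarith

/-- the ratio of the normalisations -/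
lemma rho (hc : Ok cf) : Tendsto (fun T : ℝ =>
    (1 - cf T) * T / ((II (cf T) T).card : ℝ) * (Real.log T / Real.log (cf T * T)) ^ 2)
    atTop (𝓝 1) := by
  have t1 : Tendsto (fun T : ℝ => (1 - cf T) * T / ((II (cf T) T).card : ℝ)) atTop (𝓝 1) := by
    have hlo : Tendsto (fun T : ℝ => ((II (cf T) T).card : ℝ) / ((1 - cf T) * T))
        atTop (𝓝 1) := by
      have h3 : Tendsto (fun T : ℝ => 1 - 3 / ((1 - cf T) * T)) atTop (𝓝 1) := by
        have : Tendsto (fun T : ℝ => 3 / ((1 - cf T) * T)) atTop (𝓝 0) :=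
          Tendsto.div_atTop tendsto_const_nhds hc.top'
        simpa using this.const_sub 1
      refine tendsto_of_tendsto_of_tendsto_of_le_of_le' h3 tendsto_const_nhds ?_ ?_
      · filter_upwards [hc.top'.eventually_ge_atTop 10, hc.card] with T hT h4
        have h5 : 0 < (1 - cf T) * T := by linarith
        rw [le_div_iff₀ h5]
        rw [sub_mul, one_mul, div_mul_cancel₀ _ h5.ne']
        exact h4.1
      · filter_upwards [hc.top'.eventually_ge_atTop 10, hc.card] with T hT h4
        have h5 : 0 < (1 - cf T) * T := by linarith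
        rw [div_le_one h5]
        exact h4.2
    have h4 := hlo.inv₀ one_ne_zero
    rw [inv_one] at h4
    refine h4.congr fun T => ?_
    rw [inv_div]
  have t2 : Tendsto (fun T : ℝ => Real.log T / Real.log (cf T * T)) atTop (𝓝 1) := by
    have h1 := hc.rat.inv₀ one_ne_zero
    rw [inv_one] at h1
    refine h1.congr fun T => ?_
    rw [inv_div]
  have t3 := t1.mul (t2.pow 2)
  rw [one_pow, mul_one] at t3
  exact t3

end Ok

/-- the average of functions -/
noncomputable def avg (cf : ℝ → ℝ) (D : ℝ → ℝ → ℝ) (T α : ℝ) : ℝ := avf (cf T) D T α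

lemma avg_cont {cf : ℝ → ℝ} {D : ℝ → ℝ → ℝ} (hD : ∀ x, Continuous (D x)) (T : ℝ) :
    Continuous (avg cf D T) := avf_cont hD T

lemma avg_int {cf : ℝ → ℝ} {D : ℝ → ℝ → ℝ} (hD : ∀ x, Continuous (D x)) (T a b : ℝ) :
    ∫ α in a..b, avg cf D T α = av (cf T) T fun n => ∫ α in a..b, D n α := avf_int hD T a b

lemma avg_Jt {cf : ℝ → ℝ} {D : ℝ → ℝ → ℝ} (hD : ∀ x, Continuous (D x)) (T h : ℝ) :
    Jt (avg cf D T) h = av (cf T) T fun n => Jt (D n) h := avf_Jt hD T h

/-- the starting point used below -/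
noncomputable def cl (T : ℝ) : ℝ := 1 / Real.log T

lemma cl_ok : Ok cl := by
  have hloglog : Tendsto (fun T : ℝ => Real.log (Real.log T) / Real.log T) atTop (𝓝 0) := by
    have h1 := (Real.isLittleO_log_id_atTop.tendsto_div_nhds_zero).comp Real.tendsto_log_atTop
    exact h1
  refine ⟨?_, ?_, ?_⟩
  · filter_upwards [eventually_gt_atTop 1] with T hT
    have := Real.log_pos hT
    unfold cl
    positivity
  · filter_upwards [Real.tendsto_log_atTop.eventually_ge_atTop 2] with T hT
    unfold cl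
    exact one_div_le_one_div_of_le (by norm_num) hT
  · have h2 := hloglog.const_sub 1
    rw [sub_zero] at h2
    refine h2.congr' ?_
    filter_upwards [eventually_gt_atTop 1] with T hT
    have hL := Real.log_pos hT
    unfold cl
    rw [Real.log_mul (by positivity) (by linarith), one_div, Real.log_inv]
    field_simp
    ring

lemma cl_zero : Tendsto cl atTop (𝓝 0) := by
  unfold cl
  exact Tendsto.div_atTop tendsto_const_nhds Real.tendsto_log_atTop

end Pool.Agent.NH10.FH
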