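import Pool.Agent.NH10.FH.Conv
import Pool.Agent.NH13.LV.Lc

/-! # The cumulative averages -/

set_option autoImplicit false
set_option maxHeartbeats 4000000

open Filter Topology Set MeasureTheory

namespace Pool.Agent.NH10.FH

open Pool.Agent.NH10.SV
open Pool.Agent.NH13.LV (Gq vv Jg Kc S_G S_K Lim LimC)

/-- the lines are the relative windows -/
lemma Gq_Js {t : ℝ} (ht : 1 < t) (a b : ℝ) :
    Gq t (t ^ (a - 1)) (t ^ (b - 1)) = Real.log t ^ 2 * Js t a b := by
  have ht0 : 0 < t := by linarith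
  have hL := Real.log_pos ht
  unfold Js Gq
  have h1 := intervalIntegral.integral_comp_mul_left (a := t ^ (a - 1)) (b := t ^ (b - 1))
    (fun x => Sx t x ^ 2 / x ^ 2) ht0.ne'
  have e : ∀ s : ℝ, t * t ^ (s - 1) = t ^ s := by
    intro s
    rw [Real.rpow_sub_one ht0.ne']
    field_simp
  rw [e, e, smul_eq_mul] at h1
  have h2 : ∫ x in (t ^ (a - 1))..(t ^ (b - 1)), Sx t (t * x) ^ 2 / (t * x) ^ 2 =
      ∫ H in (t ^ (a - 1))..(t ^ (b - 1)), 1 / t ^ 2 * (vv (t * H) H / H ^ 2) := by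
    refine intervalIntegral.integral_congr fun x hx => ?_
    show Sx t (t * x) ^ 2 / (t * x) ^ 2 = 1 / t ^ 2 * (vv (t * x) x / x ^ 2)
    unfold Sx vv
    have e1 : t * x / t = x := by field_simp
    rw [e1, mul_pow, one_div, ← div_eq_inv_mul, div_div, mul_comm (x ^ 2) (t ^ 2)]
  rw [h2, intervalIntegral.integral_const_mul] at h1
  obtain ⟨G, hG⟩ : ∃ G : ℝ, G = ∫ H in (t ^ (a - 1))..(t ^ (b - 1)), vv (t * H) H / H ^ 2 :=
    ⟨_, rfl⟩
  obtain ⟨I, hI⟩ : ∃ I : ℝ, I = ∫ x in (t ^ a)..(t ^ b), Sx t x ^ 2 / x ^ 2 := ⟨_, rfl⟩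
  rw [← hG, ← hI] at h1
  rw [← hG, ← hI]
  field_simp at h1 ⊢
  linarith

lemma Gq_Gw {t : ℝ} (ht : 1 < t) {α β : ℝ} (h : α ≤ β) :
    Gq t (Real.exp α) (Real.exp β) = t * Gw t α β := by
  have ht0 : 0 < t := by linarith
  have hL := Real.log_pos ht
  have e : ∀ s : ℝ, t ^ (1 + s / Real.log t - 1) = Real.exp s := by
    intro s
    rw [Real.rpow_def_of_pos ht0]
    congr 1
    field_simp
    ring
  have hab : 1 + α / Real.log t ≤ 1 + β / Real.log t := by
    have := div_le_div_of_nonneg_right h hL.le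
    linarith
  have h1 := Gq_Js ht (1 + α / Real.log t) (1 + β / Real.log t)
  rw [e, e] at h1
  rw [h1, Js_JQ ht hab, Gw_JQ ht]
  have e2 : ∀ s : ℝ, (1 + s / Real.log t) * Real.log t = s + Real.log t := by
    intro s
    field_simp
    ring
  rw [e2, e2]

lemma Gq_pow {T t : ℝ} (hT : 1 < T) (ht : 1 < t) {a b : ℝ} (h : a ≤ b) :
    Gq t (T ^ (a - 1)) (T ^ (b - 1)) =
      t * Gw t ((a - 1) * Real.log T) ((b - 1) * Real.log T) := by
  have hL := Real.log_pos hT
  rw [← Gq_Gw ht (mul_le_mul_of_nonneg_right (by linarith) hL.le),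
    Real.rpow_def_of_pos (by linarith), Real.rpow_def_of_pos (by linarith),
    mul_comm (Real.log T), mul_comm (Real.log T)]

/-- the asymptotic formula for the lines -/
lemma Lim_of (h : ∀ a b : ℝ, 1 ≤ a → a < b → Tendsto (fun T => Js T a b) atTop (𝓝 (b - a))) :
    Lim := by
  intro a b ha hab
  refine (h a b ha hab).congr' ?_
  filter_upwards [eventually_gt_atTop 1] with T hT
  have hL := Real.log_pos hT
  unfold Jg
  rw [Gq_Js hT a b]
  field_simp

/-- the averages over `[cX, X]` are bounded by the cumulative ones -/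
lemma W_le_Kc (hF : S_FORM) (hG : S_G) (hK : S_K) {c T a b : ℝ} (hc : 0 < c) (hc1 : c < 1)
    (hT : 10 ≤ c * T) (ha : 1 ≤ a) (hab : a ≤ b) : W c T a b ≤ 1 / (1 - c) * Kc T a b := by
  have hT0 : 0 < T := by nlinarith
  have hcT : c * T ≤ T := by nlinarith
  have hT1 : 1 < T := by linarith
  have hL := Real.log_pos hT1
  have h1c : 0 < 1 - c := by linarith
  have hA : 0 < T ^ (a - 1) := Real.rpow_pos_of_pos hT0 _
  have hAB : T ^ (a - 1) ≤ T ^ (b - 1) := Real.rpow_le_rpow_of_exponent_le hT1.le (by linarith)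
  rw [hF.2 c T a b hc hc1 hT ha hab, hK.1 T a b hT1 hab]
  have h1 : ∫ τ in (c * T - 1 / 2)..(T - 1 / 2),
      τ * Gw τ ((a - 1) * Real.log T) ((b - 1) * Real.log T) =
      ∫ t in (c * T - 1 / 2)..(T - 1 / 2), Gq t (T ^ (a - 1)) (T ^ (b - 1)) := by
    refine intervalIntegral.integral_congr fun t ht => ?_
    rw [uIcc_of_le (by linarith)] at ht
    exact (Gq_pow hT1 (by linarith [ht.1]) hab).symm
  have h2 : ∫ t in (c * T - 1 / 2)..(T - 1 / 2), Gq t (T ^ (a - 1)) (T ^ (b - 1)) ≤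
      ∫ t in (1 / 2)..(T - 1 / 2), Gq t (T ^ (a - 1)) (T ^ (b - 1)) := by
    refine intervalIntegral.integral_mono_interval (by linarith) (by linarith) le_rfl ?_
      (Pool.Agent.NH13.LV.LcH.ii hG hA hAB (by norm_num) (by linarith))
    refine (ae_restrict_mem measurableSet_Ioc).mono fun t ht => ?_
    exact hG.1 t _ _ (by linarith [ht.1]) hA hAB
  rw [h1]
  have h3 : 1 / (1 - c) * (1 / (T * Real.log T ^ 2) *
      ∫ t in (1 / 2)..(T - 1 / 2), Gq t (T ^ (a - 1)) (T ^ (b - 1))) =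
      1 / ((1 - c) * T * Real.log T ^ 2) *
      ∫ t in (1 / 2)..(T - 1 / 2), Gq t (T ^ (a - 1)) (T ^ (b - 1)) := by
    field_simp
  rw [h3]
  exact mul_le_mul_of_nonneg_left h2 (by positivity)

/-- **the upper bounds for the cumulative averages imply the asymptotic formula for the relative
windows** -/
theorem Cback (hF : S_FORM) (hR : S_RHW) (hD : S_DEAVG) (hG : S_G) (hK : S_K)
    (H : ∀ a b : ℝ, 1 ≤ a → a < b → ∀ ε : ℝ, 0 < ε → ∀ᶠ T in atTop, Kc T a b ≤ b - a + ε) :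
    ∀ a b : ℝ, 1 ≤ a → a < b → Tendsto (fun T => Js T a b) atTop (𝓝 (b - a)) := by
  have RH : RiemannHypothesis := by
    refine hR hF (1 / 2) (by norm_num) (by norm_num) fun B hB => ?_
    obtain ⟨T₀, hT₀⟩ := eventually_atTop.1 (H 1 B le_rfl hB 1 one_pos)
    refine ⟨1 / (1 - 1 / 2) * (B - 1 + 1), max T₀ 20, fun T hT => ?_⟩
    refine (W_le_Kc hF hG hK (by norm_num) (by norm_num)
      (by linarith [(le_max_right T₀ 20).trans hT]) le_rfl hB.le).trans ?_
    exact mul_le_mul_of_nonneg_left (hT₀ T ((le_max_left _ _).trans hT)) (by norm_num)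
  have hW : ∀ a b : ℝ, 1 ≤ a → a < b → ∀ ε : ℝ, 0 < ε → ∀ᶠ T in atTop,
      W (cl T) T a b ≤ b - a + ε := by
    intro a b ha hab ε hε
    have l1 : Tendsto (fun T => 1 / (1 - cl T) * (b - a + ε / 2)) atTop
        (𝓝 (1 / (1 - 0) * (b - a + ε / 2))) := by
      refine Tendsto.mul_const _ ?_
      exact Tendsto.div tendsto_const_nhds (cl_zero.const_sub 1) (by norm_num)
    rw [sub_zero, div_one, one_mul] at l1
    filter_upwards [l1.eventually (gt_mem_nhds (show b - a + ε / 2 < b - a + ε by linarith)),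
      H a b ha hab (ε / 2) (by linarith), cl_ok.pos, cl_ok.half,
      cl_ok.top.eventually_ge_atTop 10] with T t1 t2 c0 c1 h10
    have h1c : 0 < 1 - cl T := by linarith
    exact (W_le_Kc hF hG hK c0 (by linarith) h10 ha hab.le).trans
      ((mul_le_mul_of_nonneg_left t2 (by positivity)).trans t1.le)
  have hA : ∀ b : ℝ, 1 < b → Tendsto (fun T => av (1 / 2) T fun n => Js n 1 b) atTop
      (𝓝 (b - 1)) := by
    intro b hb
    obtain ⟨C, hC, hS⟩ := Sel_JQ RH hb.le
    obtain ⟨N, hN⟩ := eventually_atTop.1 (hS.and (eventually_gt_atTop 1))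
    obtain ⟨M, hM⟩ : ∃ M : ℝ, M = C + ∑ n ∈ Finset.range (⌈N⌉₊ + 1), |Js n 1 b| := ⟨_, rfl⟩
    have hs0 : 0 ≤ ∑ n ∈ Finset.range (⌈N⌉₊ + 1), |Js n 1 b| :=
      Finset.sum_nonneg fun _ _ => abs_nonneg _
    refine conv (K := M + (b - 1)) (fun n => ?_) (Cav_Js RH hF cl_ok hW le_rfl hb)
      (by norm_num) (by norm_num)
    have h1 : |Js n 1 b| ≤ M := by
      by_cases hn : n < ⌈N⌉₊ + 1
      · have h2 : |Js n 1 b| ≤ ∑ n ∈ Finset.range (⌈N⌉₊ + 1), |Js n 1 b| :=
          Finset.single_le_sum (f := fun n : ℕ => |Js n 1 b|) (fun _ _ => abs_nonneg _)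
            (Finset.mem_range.2 hn)
        rw [hM]
        linarith
      · have h2 : N ≤ n := by
          have h3 : ⌈N⌉₊ ≤ n := by omega
          exact (Nat.le_ceil N).trans (by exact_mod_cast h3)
        obtain ⟨h3, h4⟩ := hN n h2
        rw [fT_Js h4 hb.le] at h3
        have h5 : 0 ≤ Js n 1 b := by
          rw [← fT_Js h4 hb.le]
          exact fT_nonneg h4 hb.le
        rw [abs_of_nonneg h5, hM]
        linarith
    have h2 : |Js n 1 b - (b - 1)| ≤ |Js n 1 b| + |b - 1| := abs_sub _ _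
    rw [abs_of_pos (show 0 < b - 1 by linarith)] at h2
    linarith
  have h1 : ∀ b : ℝ, 1 < b → Tendsto (fun T => Js T 1 b) atTop (𝓝 (b - 1)) := fun b hb =>
    Js_of_av RH hD (by norm_num) (by norm_num) hA hb
  intro a b ha hab
  rcases eq_or_lt_of_le ha with h | h
  · rw [← h]
    exact h1 b (by linarith)
  · have h2 := (h1 b (by linarith)).sub (h1 a h)
    have e : b - 1 - (a - 1) = b - a := by ring
    rw [e] at h2
    refine h2.congr' ?_
    filter_upwards [eventually_gt_atTop 1] with T hT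
    rw [Js_sub hT (show 0 ≤ a by linarith) hab.le, Js_sub hT (show (0 : ℝ) ≤ 1 by norm_num) h.le,
      Js_sub hT (show (0 : ℝ) ≤ 1 by norm_num) (show 1 ≤ b by linarith)]
    ring

end Pool.Agent.NH10.FH
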