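import Pool.Agent.NH10.FH.CavJs
import Pool.Agent.NH10.FH.Back

/-! # From the averages over `[T / log T, T]` to the averages over `[cT, T]` -/

set_option autoImplicit false
set_option maxHeartbeats 4000000

open Filter Topology Set MeasureTheory

namespace Pool.Agent.NH10.FH

/-- the partial sums -/
noncomputable def SS (g : ℕ → ℝ) (m : ℕ) : ℝ := ∑ n ∈ Finset.range m, g n

lemma SS_le {g : ℕ → ℝ} {K : ℝ} (hK : ∀ n, |g n| ≤ K) (m : ℕ) : |SS g m| ≤ K * m := by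
  unfold SS
  refine (Finset.abs_sum_le_sum_abs _ _).trans ((Finset.sum_le_sum fun n _ => hK n).trans ?_)
  rw [Finset.sum_const, Finset.card_range, nsmul_eq_mul]
  exact le_of_eq (mul_comm _ _)

lemma SS_II {g : ℕ → ℝ} {c T : ℝ} (hc : 0 < c) (hc1 : c < 1) (hT : 10 ≤ (1 - c) * T) :
    ∑ n ∈ II c T, g n = SS g ⌊T⌋₊ - SS g (⌊c * T⌋₊ + 2) := by
  have hT0 : 0 < T := by
    by_contra h
    push Not at h
    nlinarith
  have hcT : 0 ≤ c * T := by positivity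
  have a1 := Nat.floor_le hcT
  have b2 := (Nat.lt_floor_add_one T).le
  have h1 : ⌊c * T⌋₊ + 2 ≤ ⌊T⌋₊ := by
    have : (⌊c * T⌋₊ : ℝ) + 2 ≤ ⌊T⌋₊ := by linarith
    exact_mod_cast this
  have hII : II c T = Finset.Ico (⌊c * T⌋₊ + 2) ⌊T⌋₊ := by
    unfold II
    ext x
    rw [Finset.mem_Ioc, Finset.mem_Ico]
    omega
  rw [hII, Finset.sum_Ico_eq_sub _ h1]
  rfl

/-- **the conversion** -/
theorem conv {f : ℕ → ℝ} {ℓ K : ℝ} (hK : ∀ n, |f n - ℓ| ≤ K)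
    (h : Tendsto (fun T => av (cl T) T f) atTop (𝓝 ℓ)) {c : ℝ} (hc : 0 < c) (hc1 : c < 1) :
    Tendsto (fun T => av c T f) atTop (𝓝 ℓ) := by
  have hK0 : 0 ≤ K := (abs_nonneg _).trans (hK 0)
  obtain ⟨g, hg⟩ : ∃ g : ℕ → ℝ, ∀ n, g n = f n - ℓ := ⟨fun n => f n - ℓ, fun n => rfl⟩
  have hgK : ∀ n, |g n| ≤ K := fun n => by rw [hg]; exact hK n
  have hsub : ∀ c' T : ℝ, 0 < ((II c' T).card : ℝ) →
      av c' T f - ℓ = (∑ n ∈ II c' T, g n) / ((II c' T).card : ℝ) := by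
    intro c' T hp
    have e : ∑ n ∈ II c' T, g n = (∑ n ∈ II c' T, f n) - (II c' T).card * ℓ := by
      rw [← nsmul_eq_mul, ← Finset.sum_const, ← Finset.sum_sub_distrib]
      exact Finset.sum_congr rfl fun n _ => hg n
    rw [e, sub_div, mul_div_cancel_left₀ _ hp.ne']
    rfl
  -- the partial sums are small
  have hsm : ∀ ε : ℝ, 0 < ε → ∀ᶠ T : ℝ in atTop, |SS g ⌊T⌋₊| ≤ ε * T := by
    intro ε hε
    have h1 : ∀ᶠ T in atTop, |av (cl T) T f - ℓ| < ε / 2 := by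
      have := Metric.tendsto_nhds.1 h (ε / 2) (by linarith)
      exact this.mono fun T hT => by rwa [Real.dist_eq] at hT
    have h2 : ∀ᶠ T : ℝ in atTop, K * (cl T + 2 / T) < ε / 2 := by
      have l1 : Tendsto (fun T : ℝ => K * (cl T + 2 / T)) atTop (𝓝 (K * (0 + 0))) :=
        (cl_zero.add (Tendsto.div_atTop tendsto_const_nhds tendsto_id)).const_mul K
      rw [add_zero, mul_zero] at l1
      exact l1.eventually (gt_mem_nhds (by linarith))
    filter_upwards [h1, h2, cl_ok.cpos, cl_ok.card, cl_ok.pos, cl_ok.half,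
      cl_ok.top'.eventually_ge_atTop 10, eventually_gt_atTop 0] with T t1 t2 hp hcard c0 c1 h10 hT
    rw [hsub _ _ hp, SS_II c0 (by linarith) h10, abs_div, abs_of_pos hp, div_lt_iff₀ hp] at t1
    have h3 := SS_le hgK (⌊cl T * T⌋₊ + 2)
    have h4 : ((⌊cl T * T⌋₊ + 2 : ℕ) : ℝ) ≤ cl T * T + 2 := by
      push_cast
      have := Nat.floor_le (show 0 ≤ cl T * T by positivity)
      linarith
    have h5 : K * ((⌊cl T * T⌋₊ + 2 : ℕ) : ℝ) ≤ K * (cl T * T + 2) :=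
      mul_le_mul_of_nonneg_left h4 hK0
    have h6 : K * (cl T * T + 2) ≤ ε / 2 * T := by
      have e : K * (cl T * T + 2) = K * (cl T + 2 / T) * T := by
        field_simp
      rw [e]
      exact mul_le_mul_of_nonneg_right t2.le hT.le
    have h7 : ε / 2 * ((II (cl T) T).card : ℝ) ≤ ε / 2 * T := by
      refine mul_le_mul_of_nonneg_left (hcard.2.trans ?_) (by linarith)
      have := mul_pos c0 hT
      linarith
    have h8 : |SS g ⌊T⌋₊| ≤ |SS g ⌊T⌋₊ - SS g (⌊cl T * T⌋₊ + 2)| + |SS g (⌊cl T * T⌋₊ + 2)| := by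
      have := abs_add_le (SS g ⌊T⌋₊ - SS g (⌊cl T * T⌋₊ + 2)) (SS g (⌊cl T * T⌋₊ + 2))
      rwa [sub_add_cancel] at this
    linarith
  rw [Metric.tendsto_nhds]
  intro ε hε
  have h1c : 0 < 1 - c := by linarith
  obtain ⟨κ, hκ⟩ : ∃ κ : ℝ, κ = ε * (1 - c) / 8 := ⟨_, rfl⟩
  have hκ0 : 0 < κ := by rw [hκ]; positivity
  filter_upwards [hsm κ hκ0, (lin_top hc).eventually (hsm κ hκ0), II_pos hc hc1,
    (lin_top h1c).eventually_ge_atTop 10, (lin_top h1c).eventually_ge_atTop 6,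
    (lin_top hκ0).eventually_ge_atTop (2 * K), eventually_gt_atTop 0]
    with T t1 t2 hp h10 h6 hKT hT
  rw [Real.dist_eq, hsub _ _ hp, SS_II hc hc1 h10, abs_div, abs_of_pos hp, div_lt_iff₀ hp]
  have c1 := (II_card hc hc1 h10).1
  have e : SS g (⌊c * T⌋₊ + 2) = SS g ⌊c * T⌋₊ + g ⌊c * T⌋₊ + g (⌊c * T⌋₊ + 1) := by
    unfold SS
    rw [Finset.sum_range_succ, Finset.sum_range_succ]
  have g1 := hgK ⌊c * T⌋₊
  have g2 := hgK (⌊c * T⌋₊ + 1)
  have h3 : |SS g (⌊c * T⌋₊ + 2)| ≤ κ * (c * T) + 2 * K := by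
    rw [e]
    refine (abs_add_le _ _).trans ?_
    have := abs_add_le (SS g ⌊c * T⌋₊) (g ⌊c * T⌋₊)
    linarith
  have h4 : κ * (c * T) ≤ κ * T := mul_le_mul_of_nonneg_left (by nlinarith) hκ0.le
  have h5 : |SS g ⌊T⌋₊ - SS g (⌊c * T⌋₊ + 2)| ≤ |SS g ⌊T⌋₊| + |SS g (⌊c * T⌋₊ + 2)| := abs_sub _ _
  have h7 : ε * ((1 - c) * T / 2) ≤ ε * ((II c T).card : ℝ) :=
    mul_le_mul_of_nonneg_left (by linarith) hε.le
  have h8 : ε * ((1 - c) * T / 2) = 4 * (κ * T) := by rw [hκ]; ring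
  have h9 : 0 < κ * T := by positivity
  linarith

end Pool.Agent.NH10.FH
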