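import Pool.Agent.NH10.FH.Stm2

/-! # The mean square of the error of the prime number theorem -/

set_option autoImplicit false
set_option maxHeartbeats 4000000

open MeasureTheory Filter Topology Set

namespace Pool.Agent.NH10.FH

namespace Cra

lemma psi6 {x : ℝ} (hx : 0 ≤ x) : Chebyshev.psi x ≤ 6 * x := by
  refine (Chebyshev.psi_le_const_mul_self hx).trans (mul_le_mul_of_nonneg_right ?_ hx)
  have h1 : Real.log 4 = 2 * Real.log 2 := by
    rw [show (4 : ℝ) = 2 ^ 2 by norm_num, Real.log_pow]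
    norm_num
  have := Real.log_two_lt_d9
  rw [h1]
  linarith

/-- the integrand -/
noncomputable def ee (x : ℝ) : ℝ := (Chebyshev.psi x - x) ^ 2 / x ^ 2

/-- the integrand for the primes in `(x, 2x]` -/
noncomputable def hh (x : ℝ) : ℝ := (Chebyshev.psi (2 * x) - Chebyshev.psi x - x) ^ 2 / x ^ 2

lemma psi_meas : Measurable Chebyshev.psi := Chebyshev.psi_mono.measurable

lemma ee_meas : Measurable ee := by
  unfold ee
  have := psi_meas
  fun_prop

lemma hh_meas : Measurable hh := by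
  unfold hh
  exact (((psi_meas.comp (measurable_const_mul 2)).sub psi_meas).sub measurable_id).pow_const 2
    |>.div (measurable_id.pow_const 2)

lemma ee_nonneg (x : ℝ) : 0 ≤ ee x := by unfold ee; positivity

lemma hh_nonneg (x : ℝ) : 0 ≤ hh x := by unfold hh; positivity

lemma ee_le {x : ℝ} (hx : 0 < x) : ee x ≤ 49 := by
  unfold ee
  rw [div_le_iff₀ (by positivity), ← sq_abs]
  have h1 := psi6 hx.le
  have h2 := Chebyshev.psi_nonneg x
  have h3 : |Chebyshev.psi x - x| ≤ 7 * x := by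
    rw [abs_le]
    constructor <;> linarith
  calc |Chebyshev.psi x - x| ^ 2 ≤ (7 * x) ^ 2 := pow_le_pow_left₀ (abs_nonneg _) h3 2
    _ = _ := by ring

lemma hh_le {x : ℝ} (hx : 0 < x) : hh x ≤ 400 := by
  unfold hh
  rw [div_le_iff₀ (by positivity), ← sq_abs]
  have h1 := psi6 hx.le
  have h2 := Chebyshev.psi_nonneg x
  have h1' := psi6 (show 0 ≤ 2 * x by linarith)
  have h2' := Chebyshev.psi_nonneg (2 * x)
  have h3 : |Chebyshev.psi (2 * x) - Chebyshev.psi x - x| ≤ 20 * x := by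
    rw [abs_le]
    constructor <;> linarith
  calc |Chebyshev.psi (2 * x) - Chebyshev.psi x - x| ^ 2 ≤ (20 * x) ^ 2 :=
        pow_le_pow_left₀ (abs_nonneg _) h3 2
    _ = _ := by ring

lemma ii {f : ℝ → ℝ} {M : ℝ} (hf : Measurable f) (h0 : ∀ x, 0 ≤ f x)
    (hM : ∀ x, 0 < x → f x ≤ M) {a b : ℝ} (ha : 0 < a) (hb : 0 < b) :
    IntervalIntegrable f volume a b := by
  rw [intervalIntegrable_iff]
  refine Measure.integrableOn_of_bounded (M := M) (by
    rw [Set.uIoc]
    exact measure_Ioc_lt_top.ne) hf.aestronglyMeasurable ?_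
  refine (ae_restrict_mem measurableSet_uIoc).mono fun x hx => ?_
  rw [Set.uIoc, mem_Ioc] at hx
  have hx0 : 0 < x := lt_trans (lt_min ha hb) hx.1
  rw [Real.norm_of_nonneg (h0 x)]
  exact hM x hx0

lemma ee_ii {a b : ℝ} (ha : 0 < a) (hb : 0 < b) : IntervalIntegrable ee volume a b :=
  ii ee_meas ee_nonneg (fun _ => ee_le) ha hb

lemma hh_ii {a b : ℝ} (ha : 0 < a) (hb : 0 < b) : IntervalIntegrable hh volume a b :=
  ii hh_meas hh_nonneg (fun _ => hh_le) ha hb

lemma ee_int_le {a b : ℝ} (ha : 0 < a) (hab : a ≤ b) : ∫ x in a..b, ee x ≤ 49 * (b - a) := by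
  have h := intervalIntegral.integral_mono_on hab (ee_ii ha (by linarith)) (by simp)
    (g := fun _ => (49 : ℝ)) fun x hx => ee_le (by linarith [hx.1])
  rw [intervalIntegral.integral_const, smul_eq_mul] at h
  linarith

/-- the dyadic mean square -/
noncomputable def D (X : ℝ) : ℝ := ∫ x in X..(2 * X), ee x

lemma D_le {X : ℝ} (hX : 0 < X) : D X ≤ 49 * X := by
  have := ee_int_le hX (show X ≤ 2 * X by linarith)
  unfold D
  linarith

lemma rec {X : ℝ} (hX : 0 < X) : D (2 * X) ≤ 3 / 4 * D X + 3 / 2 * ∫ x in X..(2 * X), hh x := by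
  have h1 := intervalIntegral.integral_comp_mul_left (a := X) (b := 2 * X) ee
    (show (2 : ℝ) ≠ 0 by norm_num)
  rw [smul_eq_mul] at h1
  have h2 : ∫ x in X..(2 * X), ee (2 * x) ≤ ∫ x in X..(2 * X), (3 / 8 * ee x + 3 / 4 * hh x) := by
    refine intervalIntegral.integral_mono_on (by linarith) ?_ ?_ fun x hx => ?_
    · have := (ee_ii (a := 2 * X) (b := 2 * (2 * X)) (by linarith) (by linarith)).comp_mul_left (c := 2)
      have e1 : 2 * X / 2 = X := by ring
      have e2 : 2 * (2 * X) / 2 = 2 * X := by ring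
      rwa [e1, e2] at this
    · exact ((ee_ii hX (by linarith)).const_mul _).add ((hh_ii hX (by linarith)).const_mul _)
    · have hx0 : 0 < x := by linarith [hx.1]
      unfold ee hh
      have e : 3 / 8 * ((Chebyshev.psi x - x) ^ 2 / x ^ 2) +
          3 / 4 * ((Chebyshev.psi (2 * x) - Chebyshev.psi x - x) ^ 2 / x ^ 2) =
          (3 / 2 * (Chebyshev.psi x - x) ^ 2 +
            3 * (Chebyshev.psi (2 * x) - Chebyshev.psi x - x) ^ 2) / (2 * x) ^ 2 := by
        field_simp
        ring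
      rw [e]
      refine div_le_div_of_nonneg_right ?_ (by positivity)
      nlinarith [sq_nonneg ((Chebyshev.psi x - x) -
        2 * (Chebyshev.psi (2 * x) - Chebyshev.psi x - x))]
  rw [h1, intervalIntegral.integral_add ((ee_ii hX (by linarith)).const_mul _)
    ((hh_ii hX (by linarith)).const_mul _), intervalIntegral.integral_const_mul,
    intervalIntegral.integral_const_mul] at h2
  unfold D
  linarith

/-- the dyadic bound -/
lemma dy (hG : GrH) {ε : ℝ} (hε : 0 < ε) : ∃ K : ℝ, 0 < K ∧ ∀ X : ℝ, 1 / 2 ≤ X →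
    D X ≤ K * X ^ ε := by
  obtain ⟨C, X₀, hC, hX₀, h⟩ := hG ε hε
  obtain ⟨K, hK⟩ : ∃ K : ℝ, K = 98 * X₀ + 6 * C := ⟨_, rfl⟩
  have hK0 : 0 < K := by rw [hK]; positivity
  have key : ∀ n : ℕ, ∀ X : ℝ, X₀ ≤ X → X ≤ 2 * X₀ → D (2 ^ n * X) ≤ K * (2 ^ n * X) ^ ε := by
    intro n X h1 h2
    induction n with
    | zero =>
      rw [pow_zero, one_mul]
      have hX : 1 ≤ X := by linarith
      have h3 := D_le (show 0 < X by linarith)
      have h4 := Real.one_le_rpow hX hε.le
      have h5 : K * 1 ≤ K * X ^ ε := mul_le_mul_of_nonneg_left h4 hK0.le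
      rw [hK] at h5
      rw [hK]
      linarith
    | succ n ih =>
      obtain ⟨Y, hY⟩ : ∃ Y : ℝ, Y = 2 ^ n * X := ⟨_, rfl⟩
      have h2n : (1 : ℝ) ≤ 2 ^ n := one_le_pow₀ (by norm_num)
      have hYX : X₀ ≤ Y := by
        rw [hY]
        nlinarith
      have hY0 : 0 < Y := by linarith
      have e : (2 : ℝ) ^ (n + 1) * X = 2 * Y := by rw [hY]; ring
      rw [← hY] at ih
      rw [e]
      have h3 := rec hY0
      have h4 : ∫ x in Y..(2 * Y), hh x ≤ C * Y ^ ε := h Y hYX
      have h5 : 0 ≤ Y ^ ε := Real.rpow_nonneg hY0.le _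
      have h6 : Y ^ ε ≤ (2 * Y) ^ ε := Real.rpow_le_rpow hY0.le (by linarith) hε.le
      have h7 : K * Y ^ ε ≤ K * (2 * Y) ^ ε := mul_le_mul_of_nonneg_left h6 hK0.le
      have h8 : 3 / 4 * K + 3 / 2 * C ≤ K := by rw [hK]; linarith
      have h9 : (3 / 4 * K + 3 / 2 * C) * Y ^ ε ≤ K * Y ^ ε := mul_le_mul_of_nonneg_right h8 h5
      linarith
  refine ⟨K + 49 * X₀ * 2 ^ ε, by positivity, fun X hX => ?_⟩
  have hX0 : 0 < X := by linarith
  have hp : 0 ≤ X ^ ε := Real.rpow_nonneg hX0.le _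
  rcases le_total X₀ X with h1 | h1
  · have h2 : 1 ≤ X / X₀ := by rw [one_le_div (by linarith)]; exact h1
    obtain ⟨n, n1, n2⟩ := exists_nat_pow_near h2 (show (1 : ℝ) < 2 by norm_num)
    have h2n : (0 : ℝ) < 2 ^ n := by positivity
    rw [le_div_iff₀ (by linarith)] at n1
    rw [div_lt_iff₀ (by linarith), pow_succ] at n2
    have h3 := key n (X / 2 ^ n) (by rw [le_div_iff₀ h2n]; linarith)
      (by rw [div_le_iff₀ h2n]; linarith)
    have e : 2 ^ n * (X / 2 ^ n) = X := by field_simp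
    rw [e] at h3
    have h4 : K * X ^ ε ≤ (K + 49 * X₀ * 2 ^ ε) * X ^ ε := by
      refine mul_le_mul_of_nonneg_right ?_ hp
      have : 0 < 49 * X₀ * (2 : ℝ) ^ ε := by positivity
      linarith
    linarith
  · have h3 := D_le hX0
    have h4 : (1 : ℝ) ≤ 2 ^ ε * X ^ ε := by
      rw [← Real.mul_rpow (by norm_num) hX0.le]
      exact Real.one_le_rpow (by linarith) hε.le
    have h5 : 49 * X₀ * 1 ≤ 49 * X₀ * (2 ^ ε * X ^ ε) :=
      mul_le_mul_of_nonneg_left h4 (by positivity)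
    have h6 : (K + 49 * X₀ * 2 ^ ε) * X ^ ε = K * X ^ ε + 49 * X₀ * (2 ^ ε * X ^ ε) := by ring
    have h7 : 0 ≤ K * X ^ ε := by positivity
    linarith

end Cra

open Cra in
/-- **FH-CRA** -/
theorem t_CRA : S_CRA := by
  intro hG ε hε
  obtain ⟨K, hK0, hK⟩ := dy hG hε
  have hr : (1 : ℝ) < 2 ^ ε := Real.one_lt_rpow (by norm_num) hε
  obtain ⟨r, hre⟩ : ∃ r : ℝ, r = (2 : ℝ) ^ ε := ⟨_, rfl⟩
  rw [← hre] at hr
  obtain ⟨M, hM⟩ : ∃ M : ℝ, M = K / (r - 1) + 49 := ⟨_, rfl⟩
  have hr1 : 0 < r - 1 := by linarith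
  have hM0 : 0 < M := by rw [hM]; positivity
  have hMr : M + K ≤ M * r := by
    have : K ≤ M * (r - 1) := by
      rw [hM, add_mul, div_mul_cancel₀ _ hr1.ne']
      nlinarith
    linarith
  have hsum : ∀ n : ℕ, ∫ x in (1 / 2)..((2 : ℝ) ^ n), ee x ≤ M * r ^ n := by
    intro n
    induction n with
    | zero =>
      rw [pow_zero, pow_zero, mul_one]
      have := ee_int_le (a := 1 / 2) (b := 1) (by norm_num) (by norm_num)
      have h2 : 49 ≤ M := by
        rw [hM]
        have : 0 < K / (r - 1) := by positivity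
        linarith
      linarith
    | succ n ih =>
      have h2n : (1 : ℝ) ≤ 2 ^ n := one_le_pow₀ (by norm_num)
      have h2n' : (2 : ℝ) ^ (n + 1) = 2 * 2 ^ n := by ring
      rw [← intervalIntegral.integral_add_adjacent_intervals
        (ee_ii (a := 1 / 2) (b := (2 : ℝ) ^ n) (by norm_num) (by positivity))
        (ee_ii (a := (2 : ℝ) ^ n) (b := (2 : ℝ) ^ (n + 1)) (by positivity) (by positivity))]
      have h3 := hK (2 ^ n) (by linarith)
      have e1 : ((2 : ℝ) ^ n) ^ ε = r ^ n := by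
        rw [hre, ← Real.rpow_natCast, ← Real.rpow_natCast, ← Real.rpow_mul (by norm_num),
          ← Real.rpow_mul (by norm_num), mul_comm]
      rw [e1] at h3
      unfold D at h3
      rw [h2n']
      have h4 : 0 < r ^ n := by positivity
      have h5 : (M + K) * r ^ n ≤ M * r * r ^ n := mul_le_mul_of_nonneg_right hMr h4.le
      have h6 : M * r ^ (n + 1) = M * r * r ^ n := by ring
      rw [h6]
      linarith
  refine ⟨M * r, by positivity, fun X hX => ?_⟩
  obtain ⟨n, n1, n2⟩ := exists_nat_pow_near hX (show (1 : ℝ) < 2 by norm_num)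
  have h1 : ∫ x in (1 / 2)..X, ee x ≤ ∫ x in (1 / 2)..((2 : ℝ) ^ (n + 1)), ee x :=
    intervalIntegral.integral_mono_interval le_rfl (by linarith) n2.le
      (ae_of_all _ fun x => ee_nonneg x) (ee_ii (by norm_num) (by positivity))
  have h2 := hsum (n + 1)
  have h3 : r ^ n ≤ X ^ ε := by
    have e1 : ((2 : ℝ) ^ n) ^ ε = r ^ n := by
      rw [hre, ← Real.rpow_natCast, ← Real.rpow_natCast, ← Real.rpow_mul (by norm_num),
        ← Real.rpow_mul (by norm_num), mul_comm]
    rw [← e1]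
    exact Real.rpow_le_rpow (by positivity) n1 hε.le
  have h4 : M * r * r ^ n ≤ M * r * X ^ ε := mul_le_mul_of_nonneg_left h3 (by positivity)
  have h5 : M * r ^ (n + 1) = M * r * r ^ n := by ring
  have h6 : ∫ x in (1 / 2)..X, (Chebyshev.psi x - x) ^ 2 / x ^ 2 = ∫ x in (1 / 2)..X, ee x := rfl
  rw [h6]
  linarith

end Pool.Agent.NH10.FH
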