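import Pool.Agent.NH10.FH.Cra
import Pool.Agent.NH13.LV.Lm

/-! # From the lines to the cumulative averages with the mean square bound (the second half is copied from
`Pool.Agent.NH13.LV.Lm` of helper11) -/

set_option autoImplicit false
set_option maxHeartbeats 4000000

open MeasureTheory Filter Topology Set

namespace Pool.Agent.NH10.FH

open Pool.Agent.NH13.LV (S_G S_K Lim LimC Gq vv Kc)

namespace Lime

open Cra

lemma vv_le {t H : ℝ} (hH : 0 < H) (ht : 0 < t) :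
    vv (t * H) H / H ^ 2 ≤ 2 * (t + 1) ^ 2 * ee ((t + 1) * H) + 2 * t ^ 2 * ee (t * H) := by
  unfold vv ee
  have e : 2 * (t + 1) ^ 2 * ((Chebyshev.psi ((t + 1) * H) - (t + 1) * H) ^ 2 /
      ((t + 1) * H) ^ 2) + 2 * t ^ 2 * ((Chebyshev.psi (t * H) - t * H) ^ 2 / (t * H) ^ 2) =
      (2 * (Chebyshev.psi ((t + 1) * H) - (t + 1) * H) ^ 2 +
        2 * (Chebyshev.psi (t * H) - t * H) ^ 2) / H ^ 2 := by
    have h1 : t + 1 ≠ 0 := by linarith
    field_simp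
  rw [e]
  refine div_le_div_of_nonneg_right ?_ (by positivity)
  have e1 : t * H + H = (t + 1) * H := by ring
  rw [e1]
  nlinarith [sq_nonneg ((Chebyshev.psi ((t + 1) * H) - (t + 1) * H) +
    (Chebyshev.psi (t * H) - t * H))]

lemma comp_ii {s A B : ℝ} (hs : 0 < s) (hA : 0 < A) (hB : 0 < B) :
    IntervalIntegrable (fun H => ee (s * H)) volume A B :=
  ii (ee_meas.comp (measurable_const_mul s)) (fun _ => ee_nonneg _)
    (fun x hx => ee_le (mul_pos hs hx)) hA hB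

lemma comp_int {s A B Z : ℝ} (hs : 1 / 2 ≤ s) (hA : 1 ≤ A) (hAB : A ≤ B) (hZ : s * B ≤ Z) :
    s ^ 2 * ∫ H in A..B, ee (s * H) ≤ s * ∫ x in (1 / 2)..Z, ee x := by
  have hs0 : 0 < s := by linarith
  have h1 := intervalIntegral.integral_comp_mul_left (a := A) (b := B) ee hs0.ne'
  rw [h1, smul_eq_mul]
  have e : s ^ 2 * (s⁻¹ * ∫ x in (s * A)..(s * B), ee x) = s * ∫ x in (s * A)..(s * B), ee x := by
    field_simp
  rw [e]
  have hsA : 1 / 2 ≤ s * A := by nlinarith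
  have hsAB : s * A ≤ s * B := mul_le_mul_of_nonneg_left hAB hs0.le
  exact mul_le_mul_of_nonneg_left (intervalIntegral.integral_mono_interval hsA hsAB hZ
    (ae_of_all _ fun x => ee_nonneg x) (ee_ii (by norm_num) (by linarith))) hs0.le

lemma vv_ii {t A B : ℝ} (ht : 0 < t) (hA : 0 < A) (hB : 0 < B) :
    IntervalIntegrable (fun H => vv (t * H) H / H ^ 2) volume A B := by
  refine ii (M := 2 * (t + 1) ^ 2 * 49 + 2 * t ^ 2 * 49) ?_ (fun H => ?_) (fun H hH => ?_) hA hB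
  · unfold vv
    have h1 : Measurable fun H : ℝ => Chebyshev.psi (t * H + H) :=
      psi_meas.comp (by fun_prop)
    have h2 : Measurable fun H : ℝ => Chebyshev.psi (t * H) := psi_meas.comp (by fun_prop)
    exact (((h1.sub h2).sub measurable_id).pow_const 2).div (measurable_id.pow_const 2)
  · unfold vv
    positivity
  · refine (vv_le hH ht).trans ?_
    have h1 := ee_le (mul_pos (show 0 < t + 1 by linarith) hH)
    have h2 := ee_le (mul_pos ht hH)
    have h3 : 2 * (t + 1) ^ 2 * ee ((t + 1) * H) ≤ 2 * (t + 1) ^ 2 * 49 :=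
      mul_le_mul_of_nonneg_left h1 (by positivity)
    have h4 : 2 * t ^ 2 * ee (t * H) ≤ 2 * t ^ 2 * 49 :=
      mul_le_mul_of_nonneg_left h2 (by positivity)
    linarith

lemma Gq_bd {t A B : ℝ} (ht : 1 / 2 ≤ t) (hA : 1 ≤ A) (hAB : A ≤ B) :
    Gq t A B ≤ 4 * (t + 1) * ∫ x in (1 / 2)..((t + 1) * B), ee x := by
  have ht0 : 0 < t := by linarith
  have hA0 : 0 < A := by linarith
  have hB0 : 0 < B := by linarith
  have h1 : Gq t A B ≤ ∫ H in A..B, (2 * (t + 1) ^ 2 * ee ((t + 1) * H) +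
      2 * t ^ 2 * ee (t * H)) := by
    unfold Gq
    exact intervalIntegral.integral_mono_on hAB (vv_ii ht0 hA0 hB0)
      (((comp_ii (by linarith) hA0 hB0).const_mul _).add ((comp_ii ht0 hA0 hB0).const_mul _))
      fun H hH => vv_le (by linarith [hH.1]) ht0
  rw [intervalIntegral.integral_add ((comp_ii (by linarith) hA0 hB0).const_mul _)
    ((comp_ii ht0 hA0 hB0).const_mul _), intervalIntegral.integral_const_mul,
    intervalIntegral.integral_const_mul] at h1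
  have h2 := comp_int (s := t + 1) (Z := (t + 1) * B) (by linarith) hA hAB le_rfl
  have h3 := comp_int (s := t) (Z := (t + 1) * B) ht hA hAB (by linarith)
  have h4 : 0 ≤ ∫ x in (1 / 2)..((t + 1) * B), ee x :=
    intervalIntegral.integral_nonneg (by nlinarith) fun x _ => ee_nonneg x
  nlinarith

theorem fb (hE : ECR) {a b : ℝ} (ha : 1 ≤ a) (hab : a < b) : ∃ C T₀ : ℝ, 0 < C ∧ ∀ T t : ℝ,
    T₀ ≤ T → 1 / 2 ≤ t → t ≤ T ^ (1 / 3 : ℝ) →
    Gq t (T ^ (a - 1)) (T ^ (b - 1)) ≤ C * T ^ (1 / 2 : ℝ) := by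
  have hb : 1 < b := by linarith
  obtain ⟨C, hC, h⟩ := hE (1 / (6 * b)) (by positivity)
  refine ⟨8 * C, 8, by positivity, fun T t hT ht htT => ?_⟩
  have hT0 : 0 < T := by linarith
  have hT1 : 1 ≤ T := by linarith
  obtain ⟨r, hr⟩ : ∃ r : ℝ, r = T ^ (1 / 3 : ℝ) := ⟨_, rfl⟩
  have hr2 : 2 ≤ r := by
    have h1 : (8 : ℝ) ^ (1 / 3 : ℝ) ≤ T ^ (1 / 3 : ℝ) := Real.rpow_le_rpow (by norm_num) hT (by norm_num)
    have h2 : (8 : ℝ) ^ (1 / 3 : ℝ) = 2 := by
      rw [show (8 : ℝ) = 2 ^ (3 : ℝ) by norm_num, ← Real.rpow_mul (by norm_num)]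
      norm_num
    rw [h2] at h1
    rw [hr]
    exact h1
  have hA : 1 ≤ T ^ (a - 1) := Real.one_le_rpow hT1 (by linarith)
  have hAB : T ^ (a - 1) ≤ T ^ (b - 1) := Real.rpow_le_rpow_of_exponent_le hT1 (by linarith)
  have h1 := Gq_bd ht hA hAB
  have hB : 1 ≤ T ^ (b - 1) := hA.trans hAB
  have hZ1 : 1 ≤ (t + 1) * T ^ (b - 1) := by nlinarith
  have hZ2 : (t + 1) * T ^ (b - 1) ≤ T ^ b := by
    have e1 : T ^ b = T * T ^ (b - 1) := by
      rw [Real.rpow_sub_one hT0.ne']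
      field_simp
    rw [e1]
    refine mul_le_mul_of_nonneg_right ?_ (by linarith)
    have e2 : T = r * r * r := by
      rw [hr, ← Real.rpow_add hT0, ← Real.rpow_add hT0]
      norm_num
    rw [e2]
    rw [← hr] at htT
    nlinarith
  have h2 := h _ hZ1
  have h3 : ((t + 1) * T ^ (b - 1)) ^ (1 / (6 * b)) ≤ T ^ (1 / 6 : ℝ) := by
    have := Real.rpow_le_rpow (by linarith) hZ2 (show 0 ≤ 1 / (6 * b) by positivity)
    rw [← Real.rpow_mul hT0.le] at this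
    have e : b * (1 / (6 * b)) = 1 / 6 := by field_simp
    rwa [e] at this
  have h4 : ∫ x in (1 / 2)..((t + 1) * T ^ (b - 1)), ee x ≤ C * T ^ (1 / 6 : ℝ) :=
    h2.trans (mul_le_mul_of_nonneg_left h3 hC.le)
  have h5 : 0 < C * T ^ (1 / 6 : ℝ) := by positivity
  have h6 : T ^ (1 / 2 : ℝ) = r * T ^ (1 / 6 : ℝ) := by
    rw [hr, ← Real.rpow_add hT0]
    norm_num
  rw [← hr] at htT
  calc Gq t (T ^ (a - 1)) (T ^ (b - 1)) ≤ 4 * (t + 1) *
        ∫ x in (1 / 2)..((t + 1) * T ^ (b - 1)), ee x := h1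
    _ ≤ 4 * (t + 1) * (C * T ^ (1 / 6 : ℝ)) := mul_le_mul_of_nonneg_left h4 (by linarith)
    _ ≤ (8 * r) * (C * T ^ (1 / 6 : ℝ)) := mul_le_mul_of_nonneg_right (by linarith) h5.le
    _ = 8 * C * T ^ (1 / 2 : ℝ) := by rw [h6]; ring

theorem small (C : ℝ) : Tendsto (fun T : ℝ =>
    T ^ (1 / 3 : ℝ) * (C * T ^ (1 / 2 : ℝ)) / (T * Real.log T ^ 2)) atTop (𝓝 0) := by
  have h1 : Tendsto (fun T : ℝ => C * T ^ (-(1 / 6) : ℝ)) atTop (𝓝 (C * 0)) :=
    (tendsto_rpow_neg_atTop (by norm_num)).const_mul C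
  have h2 : Tendsto (fun T : ℝ => (Real.log T ^ 2)⁻¹) atTop (𝓝 0) :=
    ((tendsto_pow_atTop (by norm_num)).comp Real.tendsto_log_atTop).inv_tendsto_atTop
  have h3 := h1.mul h2
  rw [mul_zero] at h3
  refine h3.congr' ?_
  filter_upwards [eventually_gt_atTop (1 : ℝ)] with T hT
  have hT0 : 0 < T := by linarith
  have hl : 0 < Real.log T := Real.log_pos hT
  have e : T ^ (1 / 3 : ℝ) * T ^ (1 / 2 : ℝ) = T ^ (-(1 / 6) : ℝ) * T := by
    rw [← Real.rpow_add hT0]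
    nth_rewrite 3 [← Real.rpow_one T]
    rw [← Real.rpow_add hT0]
    norm_num
  have e2 : T ^ (1 / 3 : ℝ) * (C * T ^ (1 / 2 : ℝ)) = C * (T ^ (-(1 / 6) : ℝ) * T) := by
    rw [← e]; ring
  rw [e2]
  field_simp

end Lime

open Pool.Agent.NH13.LV.Lm Lime in
/-- **FH-LIME** -/
theorem t_LIME : S_LIME := by
  intro hG hK hE hL a b ha hab
  have hb1 : 1 < b := ha.trans_lt hab
  have g1 := hG.1
  obtain ⟨C, T₀, hC, hfirst⟩ := fb hE ha hab
  rw [Metric.tendsto_nhds]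
  intro ε hε
  have hM : 0 < 3 * b - 2 + (b - a) := by linarith
  obtain ⟨θ, hθ0, hθ1, hθ2⟩ : ∃ θ : ℝ, 0 < θ ∧ θ < 1 ∧ θ * (3 * b - 2 + (b - a)) ≤ ε / 8 := by
    refine ⟨min (1 / 2) (ε / (8 * (3 * b - 2 + (b - a)))), lt_min (by norm_num) (by positivity),
      (min_le_left _ _).trans_lt (by norm_num), ?_⟩
    calc min (1 / 2) (ε / (8 * (3 * b - 2 + (b - a)))) * (3 * b - 2 + (b - a)) ≤
          ε / (8 * (3 * b - 2 + (b - a))) * (3 * b - 2 + (b - a)) :=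
          mul_le_mul_of_nonneg_right (min_le_right _ _) hM.le
      _ = ε / 8 := by field_simp
  have e1 := window hG hL ha hab (show 0 < ε / 8 by positivity) hθ0 hθ1
  have e2 := mid_bd hG hL ha hab
  have e3 := (small C).eventually (gt_mem_nhds (show (0 : ℝ) < ε / 8 by positivity))
  -- `T ^ (1/3) ≤ θ T`
  have e4 : ∀ᶠ T : ℝ in atTop, T ^ (1 / 3 : ℝ) ≤ θ * T := by
    filter_upwards [(tendsto_rpow_atTop (show (0 : ℝ) < 2 / 3 by norm_num)).eventually
      (eventually_ge_atTop (1 / θ)), eventually_gt_atTop (0 : ℝ)] with T hT hT0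
    rw [div_le_iff₀ hθ0] at hT
    have e : T = T ^ (1 / 3 : ℝ) * T ^ (2 / 3 : ℝ) := by
      rw [← Real.rpow_add hT0]
      norm_num
    have h3 : (0 : ℝ) < T ^ (1 / 3 : ℝ) := by positivity
    calc T ^ (1 / 3 : ℝ) = T ^ (1 / 3 : ℝ) * 1 := (mul_one _).symm
      _ ≤ T ^ (1 / 3 : ℝ) * (T ^ (2 / 3 : ℝ) * θ) := mul_le_mul_of_nonneg_left hT h3.le
      _ = θ * (T ^ (1 / 3 : ℝ) * T ^ (2 / 3 : ℝ)) := by ring
      _ = θ * T := by rw [← e]
  filter_upwards [e1, e2, e3, e4, eventually_ge_atTop (3 : ℝ),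
    eventually_ge_atTop (4 * (b - a) / ε), eventually_ge_atTop (1 / (2 * (1 - θ))),
    eventually_ge_atTop T₀] with
    T k1 k2 k3 k4 hT3 hTe hTθ hT₀
  have hT0 : 0 < T := by linarith
  have hT1 : 1 < T := by linarith
  have hl : 0 < Real.log T := Real.log_pos hT1
  have hA0 : (0 : ℝ) < T ^ (a - 1) := by positivity
  have hAB : T ^ (a - 1) ≤ T ^ (b - 1) := Real.rpow_le_rpow_of_exponent_le hT1.le (by linarith)
  have hr1 : (1 : ℝ) ≤ T ^ (1 / 3 : ℝ) := Real.one_le_rpow hT1.le (by norm_num)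
  have hθT : θ * T ≤ T - 1 / 2 := by
    rw [div_le_iff₀ (by linarith)] at hTθ
    nlinarith
  rw [Real.dist_eq, hK.1 T a b hT1 hab.le]
  obtain ⟨F, hF⟩ : ∃ F : ℝ → ℝ, F = fun t => Gq t (T ^ (a - 1)) (T ^ (b - 1)) := ⟨_, rfl⟩
  have hF' : ∀ t, Gq t (T ^ (a - 1)) (T ^ (b - 1)) = F t := fun t => by rw [hF]
  have hint : ∀ p q : ℝ, 0 < p → p ≤ q → IntervalIntegrable F volume p q := by
    intro p q hp hpq
    rw [hF]
    exact gq_int hG hA0 hAB hp hpq
  simp only [hF'] at k1 k2 ⊢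
  have i1 := hint (1 / 2) (T ^ (1 / 3 : ℝ)) (by norm_num) (by linarith)
  have i2 := hint (T ^ (1 / 3 : ℝ)) (θ * T) (by linarith) k4
  have i3 := hint (θ * T) (T - 1 / 2) (by positivity) hθT
  have hsplit : ∫ t in (1 / 2)..(T - 1 / 2), F t = (∫ t in (1 / 2)..(T ^ (1 / 3 : ℝ)), F t) +
      (∫ t in (T ^ (1 / 3 : ℝ))..(θ * T), F t) + ∫ t in (θ * T)..(T - 1 / 2), F t := by
    rw [intervalIntegral.integral_add_adjacent_intervals i1 i2,
      intervalIntegral.integral_add_adjacent_intervals (i1.trans i2) i3]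
  have hFnn : ∀ t, 0 < t → 0 ≤ F t := fun t ht => by
    rw [← hF']; exact g1 t _ _ ht hA0 hAB
  -- first part
  have u1 : ∫ t in (1 / 2)..(T ^ (1 / 3 : ℝ)), F t ≤
      T ^ (1 / 3 : ℝ) * (C * T ^ (1 / 2 : ℝ)) := by
    have h1 := int_le (show (1 / 2 : ℝ) ≤ T ^ (1 / 3 : ℝ) by linarith) i1 (fun t ht => by
      rw [← hF']; exact hfirst T t hT₀ ht.1 ht.2)
    refine h1.trans (mul_le_mul_of_nonneg_right (by linarith) (by positivity))
  have v1 : 0 ≤ ∫ t in (1 / 2)..(T ^ (1 / 3 : ℝ)), F t :=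
    intervalIntegral.integral_nonneg (by linarith) fun t ht => hFnn t (by linarith [ht.1])
  -- second part
  have u2 : ∫ t in (T ^ (1 / 3 : ℝ))..(θ * T), F t ≤ θ * T * ((3 * b - 2) * Real.log T ^ 2) := by
    have h1 := int_le k4 i2 (fun t ht => k2 t ⟨ht.1, ht.2.trans (by nlinarith)⟩)
    refine h1.trans (mul_le_mul_of_nonneg_right (by linarith) ?_)
    have : 0 ≤ 3 * b - 2 := by linarith
    positivity
  have v2 : 0 ≤ ∫ t in (T ^ (1 / 3 : ℝ))..(θ * T), F t :=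
    intervalIntegral.integral_nonneg k4 fun t ht => hFnn t (by linarith [ht.1])
  -- third part
  have u3 : ∫ t in (θ * T)..(T - 1 / 2), F t ≤ T * ((b - a + ε / 8) * Real.log T ^ 2) := by
    have h1 := int_le hθT i3 (fun t ht => (k1 t ⟨ht.1, by linarith [ht.2]⟩).2)
    refine h1.trans (mul_le_mul_of_nonneg_right (by nlinarith) ?_)
    have : 0 ≤ b - a + ε / 8 := by linarith
    positivity
  have v3 : (T - 1 / 2 - θ * T) * ((b - a - ε / 8) * Real.log T ^ 2) ≤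
      ∫ t in (θ * T)..(T - 1 / 2), F t :=
    le_int hθT i3 (fun t ht => (k1 t ⟨ht.1, by linarith [ht.2]⟩).1)
  rw [hsplit]
  have hD : 0 < T * Real.log T ^ 2 := by positivity
  rw [one_div, inv_mul_eq_div]
  have k3' : T ^ (1 / 3 : ℝ) * (C * T ^ (1 / 2 : ℝ)) <
      ε / 8 * (T * Real.log T ^ 2) := by
    rwa [div_lt_iff₀ hD] at k3
  rw [div_le_iff₀ hε] at hTe
  rw [abs_lt]
  constructor
  · rw [lt_sub_iff_add_lt, lt_div_iff₀ hD]
    have h1 : (T - 1 / 2 - θ * T) * ((b - a - ε / 8) * Real.log T ^ 2) ≥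
        (T * (b - a) - T * (ε / 8) - T * (ε / 8) - T * (ε / 8)) * Real.log T ^ 2 := by
      have h2 : (T - 1 / 2 - θ * T) * (b - a - ε / 8) ≥
          T * (b - a) - T * (ε / 8) - T * (ε / 8) - T * (ε / 8) := by
        have h3 : θ * (b - a) ≤ ε / 8 := by nlinarith
        have h4 : T * (θ * (b - a)) ≤ T * (ε / 8) := mul_le_mul_of_nonneg_left h3 hT0.le
        have h5 : 0 ≤ (1 / 2 + θ * T) * (ε / 8) := by positivity
        nlinarith
      calc (T - 1 / 2 - θ * T) * ((b - a - ε / 8) * Real.log T ^ 2) =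
            ((T - 1 / 2 - θ * T) * (b - a - ε / 8)) * Real.log T ^ 2 := by ring
        _ ≥ _ := mul_le_mul_of_nonneg_right h2 (by positivity)
    nlinarith
  · rw [sub_lt_iff_lt_add, div_lt_iff₀ hD]
    have h1 : θ * T * ((3 * b - 2) * Real.log T ^ 2) ≤ ε / 8 * (T * Real.log T ^ 2) := by
      have h2 : θ * (3 * b - 2) ≤ ε / 8 := by nlinarith
      calc θ * T * ((3 * b - 2) * Real.log T ^ 2) = (θ * (3 * b - 2)) * (T * Real.log T ^ 2) := by
            ring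
        _ ≤ ε / 8 * (T * Real.log T ^ 2) := mul_le_mul_of_nonneg_right h2 hD.le
    nlinarith

end Pool.Agent.NH10.FH
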