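import Pool.Agent.NH10.FH.Mid

/-! # From the relative windows to the averages over `[cX, X]` -/

set_option autoImplicit false
set_option maxHeartbeats 4000000

open Filter Topology Set MeasureTheory

namespace Pool.Agent.NH10.FH

open Pool.Agent.NH10.SV
open Pool.Agent.Y749.Rig hiding PT
open Pool.Agent.NH10.GM

/-- **the asymptotic formula for the averages** -/
theorem W_lim (hF : S_FORM)
    (h : ∀ b : ℝ, 1 ≤ b → Tendsto (fun T => Js T 0 b) atTop (𝓝 (b - 1 / 2)))
    {c : ℝ} (hc : 0 < c) (hc1 : c < 1) {a b : ℝ} (ha : 1 ≤ a) (hab : a < b) :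
    Tendsto (fun T => W c T a b) atTop (𝓝 (b - a)) := by
  rw [Metric.tendsto_nhds]
  intro ε hε
  have hb1 : 1 < b := by linarith
  have h1c : 0 < 1 - c := by linarith
  obtain ⟨κ, hκ⟩ : ∃ κ : ℝ, κ = min (1 / 2) (ε / (4 * (b - a))) := ⟨_, rfl⟩
  have hκ0 : 0 < κ := by
    rw [hκ]
    refine lt_min (by norm_num) (div_pos hε ?_)
    linarith
  have hκ1 : κ ≤ 1 / 2 := by rw [hκ]; exact min_le_left _ _
  have hκ2 : κ * (b - a) ≤ ε / 4 := by
    have h1 : κ ≤ ε / (4 * (b - a)) := by rw [hκ]; exact min_le_right _ _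
    rw [le_div_iff₀ (by linarith)] at h1
    linarith
  obtain ⟨N, hN⟩ := eventually_atTop.1 (unif h (B := 2 * b) (η := ε / 8) (by linarith))
  filter_upwards [(lin_top hc).eventually_ge_atTop (N + 1), (lin_top hc).eventually_ge_atTop 10,
    ev_log (c := c / 2) (by linarith) hκ0, (lin_top (show 0 < c / 2 by linarith)).eventually_ge_atTop 1]
    with T hN' h10 hlog hc2
  have hcT0 : 0 < c * T := by linarith
  have hT0 : 0 < T := (mul_pos_iff_of_pos_left hc).1 hcT0
  have hcT : c * T ≤ T := by nlinarith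
  have hT1 : 1 < T := by linarith
  obtain ⟨L, hL⟩ : ∃ L : ℝ, L = Real.log T := ⟨_, rfl⟩
  have hL0 : 0 < L := by rw [hL]; exact Real.log_pos hT1
  rw [← hL] at hlog
  have hform := hF.2 c T a b hc hc1 h10 ha hab.le
  rw [← hL] at hform
  obtain ⟨α, hα⟩ : ∃ α : ℝ, α = (a - 1) * L := ⟨_, rfl⟩
  obtain ⟨β, hβ⟩ : ∃ β : ℝ, β = (b - 1) * L := ⟨_, rfl⟩
  rw [← hα, ← hβ] at hform
  have hα0 : 0 ≤ α := by rw [hα]; exact mul_nonneg (by linarith) hL0.le
  have hαβ : α ≤ β := by rw [hα, hβ]; exact mul_le_mul_of_nonneg_right (by linarith) hL0.le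
  have hm := hF.1 α β
  have hpt : ∀ τ ∈ Icc (c * T - 1 / 2) (T - 1 / 2),
      ((1 - κ) * (b - a) - ε / 4) * L ^ 2 ≤ τ * Gw τ α β ∧
        τ * Gw τ α β ≤ (b - a + ε / 4) * L ^ 2 := by
    intro τ hτ
    have hτ9 : 9 ≤ τ := by linarith [hτ.1]
    have hτ1 : 1 < τ := by linarith
    have hτ0 : 0 < τ := by linarith
    obtain ⟨l, hl⟩ : ∃ l : ℝ, l = Real.log τ := ⟨_, rfl⟩
    have hl0 : 0 < l := by rw [hl]; exact Real.log_pos hτ1
    have hlL : l ≤ L := by rw [hl, hL]; exact Real.log_le_log hτ0 (by linarith [hτ.2])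
    have hlκ : (1 - κ) * L ≤ l := by
      refine hlog.trans ?_
      rw [hl]
      exact Real.log_le_log (by linarith) (by linarith [hτ.1])
    have hl2 : L ≤ 2 * l := by nlinarith
    obtain ⟨p, hp⟩ : ∃ p : ℝ, p = 1 + α / l := ⟨_, rfl⟩
    obtain ⟨q, hq⟩ : ∃ q : ℝ, q = 1 + β / l := ⟨_, rfl⟩
    have hpl : p * l = α + l := by rw [hp]; field_simp; ring
    have hql : q * l = β + l := by rw [hq]; field_simp; ring
    have hp1 : 1 ≤ p := by
      rw [hp]
      have : 0 ≤ α / l := by positivity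
      linarith
    have hpq : p ≤ q := by
      rw [hp, hq]
      have := div_le_div_of_nonneg_right hαβ hl0.le
      linarith
    have hqB : q ≤ 2 * b := by
      rw [hq]
      have : β / l ≤ 2 * (b - 1) := by
        rw [div_le_iff₀ hl0, hβ]
        nlinarith
      linarith
    have u1 := abs_le.1 (hN τ (by linarith [hτ.1]) p ⟨hp1, hpq.trans hqB⟩)
    have u2 := abs_le.1 (hN τ (by linarith [hτ.1]) q ⟨hp1.trans hpq, hqB⟩)
    have e1 : τ * Gw τ α β = l ^ 2 * (Js τ 0 q - Js τ 0 p) := by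
      rw [Gw_JQ hτ1, ← hl, ← hpl, ← hql, hl, ← Js_JQ hτ1 hpq, Js_sub hτ1 (by linarith) hpq]
    have e2 : l ^ 2 * (q - p) = l * ((b - a) * L) := by
      have : l * (q - p) = (b - a) * L := by
        have : l * (q - p) = q * l - p * l := by ring
        rw [this, hpl, hql, hα, hβ]
        ring
      rw [← this]
      ring
    rw [e1]
    have hll : l ^ 2 ≤ L ^ 2 := pow_le_pow_left₀ hl0.le hlL 2
    have hbaL : 0 ≤ (b - a) * L := mul_nonneg (by linarith) hL0.le
    constructor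
    · have h1 : l ^ 2 * (q - p - ε / 4) ≤ l ^ 2 * (Js τ 0 q - Js τ 0 p) :=
        mul_le_mul_of_nonneg_left (by linarith [u1.2, u2.1]) (by positivity)
      have h2 : (1 - κ) * L * ((b - a) * L) ≤ l * ((b - a) * L) :=
        mul_le_mul_of_nonneg_right hlκ hbaL
      have h3 : l ^ 2 * (ε / 4) ≤ L ^ 2 * (ε / 4) := mul_le_mul_of_nonneg_right hll (by linarith)
      have h4 : l ^ 2 * (q - p - ε / 4) = l * ((b - a) * L) - l ^ 2 * (ε / 4) := by
        rw [← e2]; ring
      rw [h4] at h1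
      linarith
    · have h1 : l ^ 2 * (Js τ 0 q - Js τ 0 p) ≤ l ^ 2 * (q - p + ε / 4) :=
        mul_le_mul_of_nonneg_left (by linarith [u1.1, u2.2]) (by positivity)
      have h2 : l * ((b - a) * L) ≤ L * ((b - a) * L) := mul_le_mul_of_nonneg_right hlL hbaL
      have h3 : l ^ 2 * (ε / 4) ≤ L ^ 2 * (ε / 4) := mul_le_mul_of_nonneg_right hll (by linarith)
      have h4 : l ^ 2 * (q - p + ε / 4) = l * ((b - a) * L) + l ^ 2 * (ε / 4) := by
        rw [← e2]; ring
      rw [h4] at h1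
      linarith
  have hle : c * T - 1 / 2 ≤ T - 1 / 2 := by linarith
  have hii := tGw_ii hm hαβ (x := c * T - 1 / 2) (y := T - 1 / 2) (by linarith) (by linarith)
  have i1 := intervalIntegral.integral_mono_on hle (by simp) hii fun τ hτ => (hpt τ hτ).1
  have i2 := intervalIntegral.integral_mono_on hle hii (by simp) fun τ hτ => (hpt τ hτ).2
  rw [intervalIntegral.integral_const, smul_eq_mul] at i1 i2
  obtain ⟨I, hI⟩ : ∃ I : ℝ, I = ∫ τ in (c * T - 1 / 2)..(T - 1 / 2), τ * Gw τ α β := ⟨_, rfl⟩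
  rw [← hI] at i1 i2 hform
  have hD : 0 < (1 - c) * T * L ^ 2 := by positivity
  have hW : W c T a b = I / ((1 - c) * T * L ^ 2) := by
    rw [hform]
    ring
  rw [hW, Real.dist_eq, abs_lt]
  have e3 : T - 1 / 2 - (c * T - 1 / 2) = (1 - c) * T := by ring
  rw [e3] at i1 i2
  constructor
  · rw [lt_sub_iff_add_lt, lt_div_iff₀ hD]
    refine lt_of_lt_of_le ?_ i1
    have h1 : -ε + (b - a) < (1 - κ) * (b - a) - ε / 4 := by linarith
    calc (-ε + (b - a)) * ((1 - c) * T * L ^ 2) < ((1 - κ) * (b - a) - ε / 4) *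
          ((1 - c) * T * L ^ 2) := mul_lt_mul_of_pos_right h1 hD
      _ = _ := by ring
  · rw [sub_lt_iff_lt_add, div_lt_iff₀ hD]
    refine lt_of_le_of_lt i2 ?_
    have h1 : b - a + ε / 4 < ε + (b - a) := by linarith
    calc (1 - c) * T * ((b - a + ε / 4) * L ^ 2) = (b - a + ε / 4) * ((1 - c) * T * L ^ 2) := by
          ring
      _ < _ := mul_lt_mul_of_pos_right h1 hD

end Pool.Agent.NH10.FH
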