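import Pool.Agent.NH10.FH.Ck
import Pool.Agent.NH10.FH.Wl
import Pool.Agent.NH10.FH.Lime
import Pool.Agent.NH17.FH.RHW
import Pool.Agent.NH93.FH.Deavg
import Pool.Agent.NH70.FH.Form
import Pool.Agent.NH13.LV.G
import Pool.Agent.NH13.LV.K

/-! # The final equivalence -/

set_option autoImplicit false
set_option maxHeartbeats 4000000

open Filter Topology Set MeasureTheory

namespace Pool.Agent.NH10.FH

open Pool.Agent.NH10.SV
open Pool.Agent.NH13.LV (psiH Vc Kc S_G S_K Lim LimC t_G t_K)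
open ArithmeticFunction (vonMangoldt)
open Pool.Agent.NH17.FH (t_RHW)

lemma psi_eq (x H : ℝ) : psiH x H = psiW x H := by
  unfold psiH psiW
  have hset : {n : ℕ | 1 ≤ n ∧ x - H / 2 ≤ n ∧ (n : ℝ) ≤ x + H / 2} =
      (((Finset.Icc ⌈x - H / 2⌉₊ ⌊x + H / 2⌋₊).filter fun n => 1 ≤ n : Finset ℕ) : Set ℕ) := by
    ext n
    simp only [mem_ofPred_eq, Finset.coe_filter, Finset.mem_Icc]
    constructor
    · rintro ⟨h1, h2, h3⟩
      exact ⟨⟨Nat.ceil_le.2 h2, (Nat.le_floor_iff' (by omega)).2 h3⟩, h1⟩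
    · rintro ⟨⟨h2, h3⟩, h1⟩
      exact ⟨h1, Nat.ceil_le.1 h2, (Nat.le_floor_iff' (by omega)).1 h3⟩
  rw [hset, finsum_mem_coe_finset]
  refine Finset.sum_subset (Finset.filter_subset _ _) fun n hn hn' => ?_
  have h0 : n = 0 := by
    by_contra h0
    exact hn' (Finset.mem_filter.2 ⟨hn, by omega⟩)
  rw [h0]
  simp

/-- the mean square bound -/
lemma ecr (h : ∀ a b : ℝ, 1 ≤ a → a < b → Tendsto (fun T => Js T a b) atTop (𝓝 (b - a))) :
    ECR := by
  refine t_CRA fun ε hε => growth (fun B hB => ?_) hε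
  obtain ⟨T₀, hT₀⟩ := eventually_atTop.1 ((h 1 B le_rfl hB).eventually
    (gt_mem_nhds (show B - 1 < B by linarith)))
  exact ⟨B, T₀, fun T hT => (hT₀ T hT).le⟩

/-- **the equivalence** -/
theorem main : List.TFAE [
    RiemannHypothesis ∧ ∀ y : ℝ, 0 < y →
      Tendsto (fun T => (Pool.Agent.NH11.PV.Nstar T y : ℝ) / Pool.Agent.Y744.Xf T) atTop
        (𝓝 (Pool.Agent.Y744.gp y)),
    ∀ a b : ℝ, 1 ≤ a → a < b → Tendsto (fun T => Kc T a b) atTop (𝓝 (b - a)),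
    ∀ a b : ℝ, 1 ≤ a → a < b → ∀ ε : ℝ, 0 < ε → ∀ᶠ T in atTop, Kc T a b ≤ b - a + ε,
    ∀ c : ℝ, 0 < c → c < 1 → ∀ a b : ℝ, 1 ≤ a → a < b →
      Tendsto (fun T => W c T a b) atTop (𝓝 (b - a)),
    ∃ c : ℝ, 0 < c ∧ c < 1 ∧ ∀ a b : ℝ, 1 ≤ a → a < b → ∀ ε : ℝ, 0 < ε →
      ∀ᶠ T in atTop, W c T a b ≤ b - a + ε] := by
  have h12 := equiv.out 0 1
  have h1G := final.out 0 1
  tfae_have 1 → 2 := by
    intro h
    have hJ := h12.1 h
    exact t_LIME t_G (t_K) (ecr hJ) (Lim_of hJ)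
  tfae_have 2 → 3 := by
    intro h a b ha hab ε hε
    exact ((h a b ha hab).eventually (gt_mem_nhds (show b - a < b - a + ε by linarith))).mono
      fun T hT => hT.le
  tfae_have 3 → 1 := by
    intro h
    exact h12.2 (Cback t_FORM t_RHW t_DEAVG t_G t_K h)
  tfae_have 1 → 4 := by
    intro h c hc hc1 a b ha hab
    exact W_lim t_FORM (GM_iff.1 (h1G.1 h)) hc hc1 ha hab
  tfae_have 4 → 5 := by
    intro h
    refine ⟨1 / 2, by norm_num, by norm_num, fun a b ha hab ε hε => ?_⟩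
    exact ((h (1 / 2) (by norm_num) (by norm_num) a b ha hab).eventually
      (gt_mem_nhds (show b - a < b - a + ε by linarith))).mono fun T hT => hT.le
  tfae_have 5 → 1 := by
    rintro ⟨c, hc, hc1, h⟩
    exact h12.2 (back t_FORM t_RHW t_DEAVG hc hc1 h)
  tfae_finish

end Pool.Agent.NH10.FH
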