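import Pool.Agent.NH10.FH.Wup

/-! # The averages of the tents -/

set_option autoImplicit false
set_option maxHeartbeats 4000000

open Filter Topology Set MeasureTheory

namespace Pool.Agent.NH10.FH

open Pool.Agent.NH10.SV
open Pool.Agent.Y749.Rig hiding PT
open Pool.Agent.NH10.GM

lemma ev_log {c : ℝ} (hc : 0 < c) {κ : ℝ} (hκ : 0 < κ) :
    ∀ᶠ T : ℝ in atTop, (1 - κ) * Real.log T ≤ Real.log (c * T) := by
  have h1 := ratio_lim (c := c) hc
  filter_upwards [h1.eventually (lt_mem_nhds (show 1 - κ < 1 by linarith)),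
    eventually_gt_atTop 1] with T h2 hT
  have hL := Real.log_pos hT
  rw [lt_div_iff₀ hL] at h2
  exact h2.le

/-- **the windows of the averages, slightly enlarged** -/
lemma Uav (RH : RiemannHypothesis) (hF : S_FORM) {c : ℝ} (hc : 0 < c) (hc1 : c < 1)
    (H : ∀ a b : ℝ, 1 ≤ a → a < b → ∀ ε : ℝ, 0 < ε → ∀ᶠ T in atTop, W c T a b ≤ b - a + ε)
    {a b : ℝ} (ha : 1 ≤ a) (hab : a < b) {ε : ℝ} (hε : 0 < ε) :
    ∃ δ : ℝ, 0 < δ ∧ δ ≤ 1 / 8 ∧ ∀ᶠ T in atTop,
      av c T (fun n => JQ n ((a - δ) * Real.log n) ((b + δ) * Real.log n)) ≤ b - a + ε := by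
  rcases eq_or_lt_of_le ha with h1 | h1
  · rw [← h1] at hab ⊢
    obtain ⟨δ, hδ0, hδ1, hδ⟩ := near_sharp (show 0 < ε / 4 by linarith)
    obtain ⟨d, hd⟩ : ∃ d : ℝ, d = min δ (ε / 4) := ⟨_, rfl⟩
    have hd0 : 0 < d := by rw [hd]; exact lt_min hδ0 (by linarith)
    have hd1 : d ≤ δ := by rw [hd]; exact min_le_left _ _
    have hd2 : d ≤ ε / 4 := by rw [hd]; exact min_le_right _ _
    refine ⟨d, hd0, by linarith, ?_⟩
    have hW := Wup RH hF hc hc1 (p := 1) (q := b + 2 * d) le_rfl (by linarith)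
      (fun ε' hε' => H 1 (b + 2 * d) le_rfl (by linarith) ε' hε') (show 0 < ε / 4 by linarith)
    filter_upwards [hW, ev_av hc hδ, II_pos hc hc1, (lin_top hc).eventually_ge_atTop 10,
      Real.tendsto_log_atTop.eventually_ge_atTop (1 / d)] with T t1 t2 hp h10 hLd
    have hcT0 : 0 < c * T := by linarith
    have hT0 : 0 < T := (mul_pos_iff_of_pos_left hc).1 hcT0
    have hLd' : 1 ≤ d * Real.log T := by
      rw [div_le_iff₀ hd0] at hLd
      linarith
    have key : av c T (fun n => JQ n ((1 - d) * Real.log n) ((b + d) * Real.log n)) ≤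
        av c T (fun n => ε / 4 + JQ n ((1 - 1) * Real.log T + Real.log n)
          ((b + 2 * d - 1) * Real.log T + Real.log n - 1)) := by
      refine av_mono fun n hn => ?_
      obtain ⟨n1, n2⟩ := II_mem hT0.le hn
      have hn1 : (1 : ℝ) < n := by linarith
      have hln := one_lt_log (show (3 : ℝ) ≤ n by linarith)
      have hnL : Real.log n ≤ Real.log T := Real.log_le_log (by linarith) (by linarith)
      have e1 := JQ_add hn1 ((1 - d) * Real.log n) (Real.log n) ((b + d) * Real.log n)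
      have e2 : JQ n ((1 - d) * Real.log n) (Real.log n) ≤ ε / 4 := by
        refine (JQ_mono hn1 (a' := (1 - δ) * Real.log n) (b' := Real.log n + 1) ?_ ?_ ?_).trans
          (t2 n hn)
        · nlinarith
        · nlinarith
        · linarith
      have e3 : JQ n (Real.log n) ((b + d) * Real.log n) ≤
          JQ n ((1 - 1) * Real.log T + Real.log n)
            ((b + 2 * d - 1) * Real.log T + Real.log n - 1) := by
        refine JQ_mono hn1 (by linarith) ?_ ?_
        · nlinarith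
        · have : (b + d - 1) * Real.log n ≤ (b + d - 1) * Real.log T :=
            mul_le_mul_of_nonneg_left hnL (by linarith)
          linarith
      rw [e1]
      exact add_le_add e2 e3
    rw [av_add, av_const hp] at key
    linarith
  · obtain ⟨d, hd⟩ : ∃ d : ℝ, d = min (1 / 8) (min ((a - 1) / 2) (ε / 8)) := ⟨_, rfl⟩
    have hd0 : 0 < d := by
      rw [hd]; exact lt_min (by norm_num) (lt_min (by linarith) (by linarith))
    have hd1 : d ≤ 1 / 8 := by rw [hd]; exact min_le_left _ _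
    have hd2 : d ≤ (a - 1) / 2 := by rw [hd]; exact (min_le_right _ _).trans (min_le_left _ _)
    have hd3 : d ≤ ε / 8 := by rw [hd]; exact (min_le_right _ _).trans (min_le_right _ _)
    refine ⟨d, hd0, hd1, ?_⟩
    have hW := Wup RH hF hc hc1 (p := a - 2 * d) (q := b + 2 * d) (by linarith) (by linarith)
      (fun ε' hε' => H (a - 2 * d) (b + 2 * d) (by linarith) (by linarith) ε' hε')
      (show 0 < ε / 4 by linarith)
    have ha0 : 0 < a := by linarith
    filter_upwards [hW, II_pos hc hc1, (lin_top hc).eventually_ge_atTop 10,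
      Real.tendsto_log_atTop.eventually_ge_atTop (1 / d),
      ev_log hc (show 0 < d / a by positivity)] with T t1 hp h10 hLd hlog
    have hcT0 : 0 < c * T := by linarith
    have hT0 : 0 < T := (mul_pos_iff_of_pos_left hc).1 hcT0
    have hLd' : 1 ≤ d * Real.log T := by
      rw [div_le_iff₀ hd0] at hLd
      linarith
    refine le_trans (av_mono fun n hn => ?_) (t1.trans (by linarith))
    obtain ⟨n1, n2⟩ := II_mem hT0.le hn
    have hn1 : (1 : ℝ) < n := by linarith
    have hln := one_lt_log (show (3 : ℝ) ≤ n by linarith)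
    have hnL : Real.log n ≤ Real.log T := Real.log_le_log (by linarith) (by linarith)
    have hcn : Real.log (c * T) ≤ Real.log n := Real.log_le_log hcT0 (by linarith)
    have hL0 : 0 < Real.log T := by linarith
    refine JQ_mono hn1 ?_ ?_ ?_
    · have k1 : (a - d - 1) * ((1 - d / a) * Real.log T) ≤ (a - d - 1) * Real.log n :=
        mul_le_mul_of_nonneg_left (hlog.trans hcn) (by linarith)
      have k2 : (a - 2 * d - 1) * Real.log T ≤ (a - d - 1) * ((1 - d / a) * Real.log T) := by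
        rw [← mul_assoc]
        refine mul_le_mul_of_nonneg_right ?_ hL0.le
        have e : (a - d - 1) * (1 - d / a) = a - d - 1 - d * ((a - d - 1) / a) := by
          field_simp
        rw [e]
        have : (a - d - 1) / a ≤ 1 := by rw [div_le_one ha0]; linarith
        nlinarith
      linarith
    · exact mul_le_mul_of_nonneg_right (by linarith) (by linarith)
    · have : (b + d - 1) * Real.log n ≤ (b + d - 1) * Real.log T :=
        mul_le_mul_of_nonneg_left hnL (by linarith)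
      linarith

lemma hsqrt {δ : ℝ} (hδ : 0 < δ) : ∀ᶠ T : ℝ in atTop, 1 / Real.sqrt T ≤ δ * Real.log T := by
  filter_upwards [eventually_ge_atTop 10,
    Real.tendsto_log_atTop.eventually_ge_atTop (1 / δ)] with T hT h1
  have h2 : 1 ≤ Real.sqrt T := by rw [Real.one_le_sqrt]; linarith
  have h3 : 1 / Real.sqrt T ≤ 1 := by rw [div_le_one (by linarith)]; exact h2
  rw [div_le_iff₀ hδ] at h1
  linarith

lemma hmid {a b δ : ℝ} (hδ : 0 < δ) (hab : a ≤ b) {η ε : ℝ} (hη : 0 < η) (hε : 0 < ε) :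
    ∀ᶠ T in atTop, (∫ α in a..b, Wn T (Pf T) α) ≤
      (1 + η) * JQ T ((a - δ) * Real.log T) ((b + δ) * Real.log T) + ε := by
  filter_upwards [Wn_le_JQ hab (show 0 < min η ε from lt_min hη hε), hsqrt hδ,
    eventually_ge_atTop 10] with T t1 t2 hT
  have hT1 : 1 < T := by linarith
  have hL := one_lt_log (show 3 ≤ T by linarith)
  have hs : 0 < 1 / Real.sqrt T := by
    have := Real.sqrt_pos.2 (show 0 < T by linarith)
    positivity
  have hab' := mul_le_mul_of_nonneg_right hab (show 0 ≤ Real.log T by linarith)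
  have h3 := JQ_mono hT1 (a := a * Real.log T - 1 / Real.sqrt T)
    (b := b * Real.log T + 1 / Real.sqrt T) (a' := (a - δ) * Real.log T)
    (b' := (b + δ) * Real.log T) (by linarith) (by linarith) (by linarith)
  have h4 := JQ_nonneg hT1 (a := a * Real.log T - 1 / Real.sqrt T)
    (b := b * Real.log T + 1 / Real.sqrt T) (by linarith)
  have h5 : (1 + min η ε) * JQ T (a * Real.log T - 1 / Real.sqrt T)
      (b * Real.log T + 1 / Real.sqrt T) ≤
      (1 + η) * JQ T ((a - δ) * Real.log T) ((b + δ) * Real.log T) :=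
    mul_le_mul (by linarith [min_le_left η ε]) h3 h4 (by linarith)
  linarith [min_le_right η ε]

variable {Yf : ℝ → ℝ}

/-- the function of the zeros -/
noncomputable def DD (Yf : ℝ → ℝ) (T α : ℝ) : ℝ := Ds T (Pf T) (Yf (Pf T)) α

lemma DD_cont (Yf : ℝ → ℝ) (T : ℝ) : Continuous (DD Yf T) := Ds_cont _ _ _

lemma DD_nonneg (Yf : ℝ → ℝ) {T : ℝ} (hT : 1 ≤ T) (α : ℝ) : 0 ≤ DD Yf T α := Ds_nonneg hT _ _ _

/-- the windows of the zeros are at most the sharp ones -/
lemma Dup (hE : EFp Yf) {a b δ : ℝ} (hδ : 0 < δ) (ha : 3 / 4 ≤ a - δ) (hab : a ≤ b) {η ε : ℝ}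
    (hη : 0 < η) (hη1 : η ≤ 1) (hε : 0 < ε) : ∀ᶠ T in atTop,
      (∫ α in a..b, DD Yf T α) ≤
        (1 + 3 * η) * JQ T ((a - δ) * Real.log T) ((b + δ) * Real.log T) + 3 * ε := by
  filter_upwards [Ds_le_Wn (δ := δ / 2) hE (by linarith) (by linarith) hab hη hε,
    hmid (a := a - δ / 2) (b := b) (δ := δ / 2) (by linarith) (by linarith) hη hε,
    eventually_ge_atTop 10] with T t1 t2 hT
  have hT1 : 1 < T := by linarith
  have hL := one_lt_log (show 3 ≤ T by linarith)
  have e1 : a - δ / 2 - δ / 2 = a - δ := by ring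
  rw [e1] at t2
  have h3 := JQ_mono hT1 (a := (a - δ) * Real.log T) (b := (b + δ / 2) * Real.log T)
    (a' := (a - δ) * Real.log T) (b' := (b + δ) * Real.log T) le_rfl (by nlinarith)
    (by nlinarith)
  have h4 := JQ_nonneg hT1 (a := (a - δ) * Real.log T) (b := (b + δ) * Real.log T)
    (by nlinarith)
  obtain ⟨J, hJ⟩ : ∃ J : ℝ, J = JQ T ((a - δ) * Real.log T) ((b + δ) * Real.log T) := ⟨_, rfl⟩
  rw [← hJ] at h3 h4 ⊢
  obtain ⟨J', hJ'⟩ : ∃ J' : ℝ, J' = JQ T ((a - δ) * Real.log T) ((b + δ / 2) * Real.log T) :=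
    ⟨_, rfl⟩
  rw [← hJ'] at h3 t2
  have t1' : (∫ α in a..b, DD Yf T α) ≤ (1 + η) * (∫ α in (a - δ / 2)..b, Wn T (Pf T) α) + ε := t1
  have h5 : (1 + η) * (∫ α in (a - δ / 2)..b, Wn T (Pf T) α) ≤ (1 + η) * ((1 + η) * J + ε) :=
    mul_le_mul_of_nonneg_left (t2.trans (by nlinarith)) (by linarith)
  have h6 : (1 + η) * (1 + η) * J ≤ (1 + 3 * η) * J :=
    mul_le_mul_of_nonneg_right (by nlinarith) h4
  have h7 : (1 + η) * ε ≤ 2 * ε := mul_le_mul_of_nonneg_right (by linarith) hε.le
  linarith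

/-- **the tents of the averages** -/
theorem tents (RH : RiemannHypothesis) (hF : S_FORM) (hYf : ∀ T : ℝ, 10 ≤ T → T ^ 2 ≤ Yf T)
    (hE : EFp Yf) {c : ℝ} (hc : 0 < c) (hc1 : c < 1)
    (H : ∀ a b : ℝ, 1 ≤ a → a < b → ∀ ε : ℝ, 0 < ε → ∀ᶠ T in atTop, W c T a b ≤ b - a + ε)
    {h : ℝ} (hh : 0 < h) :
    Tendsto (fun T => Jt (avf c (DD Yf) T) h) atTop (𝓝 (PG h)) := by
  have hpar := Pf_par hYf
  have key := rigid (D := avf c (DD Yf)) (c := 1) one_pos
    (Eventually.of_forall fun T => avf_cont (DD_cont Yf) T)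
    ((ev_av hc (eventually_ge_atTop 1)).mono fun T hT α =>
      div_nonneg (Finset.sum_nonneg fun n hn => DD_nonneg Yf (hT n hn) α) (Nat.cast_nonneg _))
    ?_ ?_ ?_ ?_ hh
  · rwa [one_mul] at key
  · intro h hh h1
    rw [one_mul]
    have h2 : Tendsto (fun T => Jt (DD Yf T) h) atTop (𝓝 (PG h)) := by
      refine mix_limS hpar hh ?_
      filter_upwards [lt_mem_nhds hh, gt_mem_nhds h1] with y hy hy1
      exact PT_mont RH hy hy1
    refine (av_lim hc hc1 h2).congr fun T => ?_
    exact (avf_Jt (DD_cont Yf) T h).symm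
  · intro h hh ε hε
    rw [one_mul]
    have h2 : ∀ᶠ T in atTop, h ^ 2 - ε ≤ Jt (DD Yf T) h := mix_lowS hpar hh hε
    filter_upwards [le_av (f := fun T => Jt (DD Yf T) h) hc hc1 h2] with T hT
    rw [avf_Jt (DD_cont Yf)]
    exact hT
  · intro a b ha hab ε hε
    rw [one_mul]
    obtain ⟨δ, hδ0, hδ1, hδ⟩ := Uav RH hF hc hc1 H ha hab (show 0 < ε / 4 by linarith)
    obtain ⟨η, hη⟩ : ∃ η : ℝ, η = min 1 (ε / (12 * (b - a + ε / 4))) := ⟨_, rfl⟩
    have hba : 0 < b - a + ε / 4 := by linarith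
    have hη0 : 0 < η := by rw [hη]; exact lt_min one_pos (by positivity)
    have hη1 : η ≤ 1 := by rw [hη]; exact min_le_left _ _
    have hη2 : 3 * η * (b - a + ε / 4) ≤ ε / 4 := by
      have : η ≤ ε / (12 * (b - a + ε / 4)) := by rw [hη]; exact min_le_right _ _
      rw [le_div_iff₀ (by positivity)] at this
      linarith
    filter_upwards [hδ, ev_av hc (Dup hE hδ0 (show 3 / 4 ≤ a - δ by linarith) hab.le hη0 hη1
      (show 0 < ε / 12 by linarith)), II_pos hc hc1] with T t1 t2 hp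
    rw [avf_int (DD_cont Yf)]
    have h3 := av_mono (f := fun n => ∫ α in a..b, DD Yf n α)
      (g := fun n => (1 + 3 * η) * JQ n ((a - δ) * Real.log n) ((b + δ) * Real.log n) +
        3 * (ε / 12)) t2
    rw [av_add, av_mul, av_const hp] at h3
    have h4 := mul_le_mul_of_nonneg_left t1 (show 0 ≤ 1 + 3 * η by linarith)
    linarith
  · intro ε hε
    obtain ⟨δ, hδ0, hδ1, hδ⟩ := near_sharp (show 0 < ε / 8 by linarith)
    refine ⟨δ / 3, by linarith, by linarith, ?_⟩
    have h2 : ∀ᶠ T in atTop, ∫ α in (1 - δ / 3)..1, DD Yf T α ≤ ε := by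
      filter_upwards [hδ, Ds_le_Wn (a := 1 - δ / 3) (b := 1) (δ := δ / 3) hE (by linarith)
        (by linarith) (by linarith) one_pos (show 0 < ε / 4 by linarith),
        Wn_le_JQ (a := 1 - δ / 3 - δ / 3) (b := 1) (by linarith)
        (show 0 < min 1 (ε / 8) from lt_min one_pos (by linarith)),
        hsqrt (show 0 < δ / 3 by linarith), eventually_ge_atTop 10] with T t1 t2 t3 t4 hT
      have hT1 : 1 < T := by linarith
      have hL := one_lt_log (show 3 ≤ T by linarith)
      have hs2 : 1 ≤ Real.sqrt T := by rw [Real.one_le_sqrt]; linarith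
      have hs3 : 1 / Real.sqrt T ≤ 1 := by rw [div_le_one (by linarith)]; exact hs2
      have hs4 : 0 < 1 / Real.sqrt T := by positivity
      have h3 := JQ_mono hT1 (a := (1 - δ / 3 - δ / 3) * Real.log T - 1 / Real.sqrt T)
        (b := 1 * Real.log T + 1 / Real.sqrt T) (a' := (1 - δ) * Real.log T)
        (b' := Real.log T + 1) (by linarith) (by nlinarith) (by linarith)
      have h4 := JQ_nonneg hT1 (a := (1 - δ / 3 - δ / 3) * Real.log T - 1 / Real.sqrt T)
        (b := 1 * Real.log T + 1 / Real.sqrt T) (by nlinarith)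
      have h5 : JQ T ((1 - δ) * Real.log T) (Real.log T + 1) ≤ ε / 8 := t1
      have h6 := min_le_left 1 (ε / 8)
      have h7 := min_le_right 1 (ε / 8)
      have h8 : (1 + min 1 (ε / 8)) * JQ T ((1 - δ / 3 - δ / 3) * Real.log T - 1 / Real.sqrt T)
          (1 * Real.log T + 1 / Real.sqrt T) ≤ (1 + 1) * (ε / 8) :=
        mul_le_mul (by linarith) (h3.trans h5) h4 (by norm_num)
      have t2' : (∫ α in (1 - δ / 3)..1, DD Yf T α) ≤
        (1 + 1) * (∫ α in (1 - δ / 3 - δ / 3)..1, Wn T (Pf T) α) + ε / 4 := t2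
      linarith
    filter_upwards [av_le (f := fun T => ∫ α in (1 - δ / 3)..1, DD Yf T α) hc hc1 h2] with T hT
    rw [avf_int (DD_cont Yf)]
    exact hT

end Pool.Agent.NH10.FH
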