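import Pool.Agent.NH10.FH.AvJs

/-! # From the averages to the sharp windows -/

set_option autoImplicit false
set_option maxHeartbeats 4000000

open Filter Topology Set MeasureTheory

namespace Pool.Agent.NH10.FH

open Pool.Agent.NH10.SV
open Pool.Agent.Y749.Rig hiding PT
open Pool.Agent.NH10.GM

/-- the window `[T, T ^ s]` -/
noncomputable def fT (T s : ℝ) : ℝ := JQ T (Real.log T) (s * Real.log T)

lemma fT_cont {T : ℝ} (hT : 1 ≤ T) : Continuous (fT T) := by
  have h1 : Continuous fun x => ∫ u in (Real.log T)..x, Qu T u :=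
    intervalIntegral.continuous_primitive (fun a b => Qu_ii hT a b) _
  unfold fT JQ
  exact continuous_const.mul (h1.comp (continuous_mul_const _))

lemma fT_Js {T s : ℝ} (hT : 1 < T) (hs : 1 ≤ s) : fT T s = Js T 1 s := by
  rw [Js_JQ hT hs, one_mul]
  rfl

lemma fT_mono {T s s' : ℝ} (hT : 1 < T) (hs : 1 ≤ s) (h : s ≤ s') : fT T s ≤ fT T s' := by
  have hL := Real.log_pos hT
  refine JQ_mono hT le_rfl ?_ (mul_le_mul_of_nonneg_right h hL.le)
  nlinarith

lemma fT_nonneg {T s : ℝ} (hT : 1 < T) (hs : 1 ≤ s) : 0 ≤ fT T s := by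
  have hL := Real.log_pos hT
  refine JQ_nonneg hT ?_
  nlinarith

/-- the integrated windows -/
noncomputable def Ph (y T : ℝ) : ℝ := ∫ s in (1 : ℝ)..y, fT T s

lemma Sel_JQ (RH : RiemannHypothesis) {B : ℝ} (hB : 1 ≤ B) : ∃ C : ℝ, 0 < C ∧ ∀ᶠ T in atTop,
    fT T B ≤ C := by
  obtain ⟨C, hC, hS⟩ := Sel RH hB
  refine ⟨C, hC, ?_⟩
  filter_upwards [hS, eventually_ge_atTop 10, Real.tendsto_log_atTop.eventually_ge_atTop 3]
    with T h1 hT hL
  have hT0 : 0 < T := by linarith
  have h2 := h1 (Real.log T) (B * Real.log T) hL (by nlinarith) le_rfl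
  unfold fT JQ
  calc T / Real.log T ^ 2 * ∫ u in (Real.log T)..(B * Real.log T), Qu T u ≤
        T / Real.log T ^ 2 * (C * (Real.log T ^ 2 / T)) :=
        mul_le_mul_of_nonneg_left h2 (by positivity)
    _ = C := by
        have : Real.log T ≠ 0 := by positivity
        field_simp

/-- the integrated windows vary slowly -/
lemma Ph_slow (RH : RiemannHypothesis) {y : ℝ} (hy : 1 < y) : ∃ C : ℝ, 0 < C ∧
    ∀ η : ℝ, 0 < η → η ≤ 1 → ∀ᶠ T in atTop, ∀ T' ∈ Icc T ((1 + η) * T),
      |Ph y T' - Ph y T| ≤ C * Real.sqrt η := by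
  obtain ⟨C, hC, hS⟩ := slow RH (show 1 ≤ 2 * y by linarith)
  obtain ⟨K, hK, hSel⟩ := Sel_JQ RH (show 1 ≤ 2 * y by linarith)
  refine ⟨y * (C + 1) + 1, by positivity, fun η hη hη1 => ?_⟩
  have hκ : 0 < Real.sqrt η := Real.sqrt_pos.2 hη
  obtain ⟨δ, hδ0, hδ1, hδ⟩ := near_sharp hκ
  rw [eventually_atTop] at hδ
  obtain ⟨T₀, hδ⟩ := hδ
  filter_upwards [hS η hη hη1, hSel, eventually_ge_atTop T₀, eventually_ge_atTop 10,
    Real.tendsto_log_atTop.eventually_ge_atTop 3,
    Real.tendsto_log_atTop.eventually_ge_atTop (1 / δ),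
    Real.tendsto_log_atTop.eventually_ge_atTop (y * K / Real.sqrt η)]
    with T h1 h2 hTT0 hT hL3 hLδ hLK T' hT'
  have hT0 : 0 < T := by linarith
  have hT1 : 1 < T := by linarith
  have hTT' : T ≤ T' := hT'.1
  have hT'1 : 1 < T' := by linarith
  have hT'0 : 0 < T' := by linarith
  obtain ⟨L, hL⟩ : ∃ L : ℝ, L = Real.log T := ⟨_, rfl⟩
  obtain ⟨L', hL'⟩ : ∃ L' : ℝ, L' = Real.log T' := ⟨_, rfl⟩
  rw [← hL] at hL3 hLδ hLK
  have hL0 : 0 < L := by linarith
  have hLL' : L ≤ L' := by rw [hL, hL']; exact Real.log_le_log hT0 hTT'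
  have hL'0 : 0 < L' := by linarith
  have hLL2 : L' ≤ L + η := by
    have h3 := Real.log_le_log hT'0 hT'.2
    rw [Real.log_mul (by positivity) hT0.ne', ← hL', ← hL] at h3
    have h4 := Real.log_le_sub_one_of_pos (show 0 < 1 + η by linarith)
    linarith
  have hδL : 1 ≤ δ * L := by
    rw [div_le_iff₀ hδ0] at hLδ
    linarith
  obtain ⟨lam, hlam⟩ : ∃ lam : ℝ, lam = L' / L := ⟨_, rfl⟩
  have hlam1 : 1 ≤ lam := by rw [hlam, one_le_div hL0]; exact hLL'
  have hlam2 : lam * L = L' := by rw [hlam]; field_simp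
  have hlam3 : lam - 1 ≤ 1 / L := by
    rw [le_div_iff₀ hL0]
    have : (lam - 1) * L = L' - L := by rw [sub_mul, hlam2]; ring
    rw [this]
    linarith
  have hlamy : lam ≤ 2 := by
    have : 1 / L ≤ 1 := by rw [div_le_one hL0]; linarith
    linarith
  -- the comparison for one window
  have hcmp : ∀ s ∈ Icc 1 y, |fT T' s - fT T (s * lam)| ≤ (C + 1) * Real.sqrt η := by
    intro s hs
    have hs0 : 0 < s := by linarith [hs.1]
    have e1 : fT T (s * lam) = JQ T L (s * L') := by
      unfold fT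
      rw [← hL, mul_assoc, hlam2]
    have e2 : fT T' s = JQ T' L (s * L') - JQ T' L L' := by
      unfold fT
      rw [← hL', JQ_add hT'1 L L' (s * L')]
      ring
    have hsL : L' ≤ s * L' := by nlinarith [hs.1]
    have e3 := h1 T' hT' L (s * L') hL3 (by linarith) (by
      rw [← hL]
      have : s * L' ≤ y * (2 * L) := mul_le_mul hs.2 (by linarith) hL'0.le (by linarith)
      linarith)
    have e4 : JQ T' L L' ≤ Real.sqrt η := by
      refine (JQ_mono hT'1 (a' := (1 - δ) * L') (b' := L' + 1) ?_ hLL' (by linarith)).trans ?_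
      · nlinarith
      · have := hδ T' (hTT0.trans hTT')
        rw [← hL'] at this
        unfold JQ
        rw [← hL']
        exact this
    have e5 : 0 ≤ JQ T' L L' := JQ_nonneg hT'1 hLL'
    rw [e1, e2]
    have e3' := abs_le.1 e3
    rw [abs_le]
    constructor <;> linarith
  have c' := fT_cont hT'1.le
  have c0 := fT_cont hT1.le
  have c1 : Continuous fun s => fT T (s * lam) := c0.comp (continuous_mul_const _)
  have k1 : |Ph y T' - ∫ s in (1 : ℝ)..y, fT T (s * lam)| ≤ (y - 1) * ((C + 1) * Real.sqrt η) := by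
    unfold Ph
    rw [← intervalIntegral.integral_sub (c'.intervalIntegrable _ _) (c1.intervalIntegrable _ _)]
    have h3 := intervalIntegral.norm_integral_le_of_norm_le_const (a := (1 : ℝ)) (b := y)
      (f := fun s => fT T' s - fT T (s * lam)) (C := (C + 1) * Real.sqrt η) fun s hs => by
        rw [uIoc_of_le hy.le] at hs
        rw [Real.norm_eq_abs]
        exact hcmp s ⟨hs.1.le, hs.2⟩
    rw [Real.norm_eq_abs, abs_of_pos (show 0 < y - 1 by linarith)] at h3
    linarith
  have k2 : Ph y T ≤ ∫ s in (1 : ℝ)..y, fT T (s * lam) := by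
    unfold Ph
    refine intervalIntegral.integral_mono_on hy.le (c0.intervalIntegrable _ _)
      (c1.intervalIntegrable _ _) fun s hs => fT_mono hT1 hs.1 ?_
    nlinarith [hs.1]
  have k3 : ∫ s in (1 : ℝ)..y, fT T (s * lam) ≤ Ph y T + Real.sqrt η := by
    have hlam0 : 0 < lam := by linarith
    rw [intervalIntegral.integral_comp_mul_right (fun s => fT T s) hlam0.ne', smul_eq_mul, one_mul]
    have hyl : y ≤ y * lam := by nlinarith
    have i1 : 0 ≤ ∫ s in lam..(y * lam), fT T s :=
      intervalIntegral.integral_nonneg (by nlinarith) fun s hs => fT_nonneg hT1 (by linarith [hs.1])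
    have i2 : lam⁻¹ * (∫ s in lam..(y * lam), fT T s) ≤ ∫ s in lam..(y * lam), fT T s := by
      have : lam⁻¹ ≤ 1 := inv_le_one_of_one_le₀ hlam1
      nlinarith
    have i3 : ∫ s in lam..(y * lam), fT T s ≤ ∫ s in (1 : ℝ)..(y * lam), fT T s := by
      refine intervalIntegral.integral_mono_interval hlam1 (by nlinarith) le_rfl ?_
        (c0.intervalIntegrable _ _)
      exact (ae_restrict_mem measurableSet_Ioc).mono fun s hs => fT_nonneg hT1 hs.1.le
    have i4 : ∫ s in (1 : ℝ)..(y * lam), fT T s = Ph y T + ∫ s in y..(y * lam), fT T s :=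
      (intervalIntegral.integral_add_adjacent_intervals (c0.intervalIntegrable _ _)
        (c0.intervalIntegrable _ _)).symm
    have i5 : ∫ s in y..(y * lam), fT T s ≤ ∫ s in y..(y * lam), K := by
      refine intervalIntegral.integral_mono_on hyl (c0.intervalIntegrable _ _) (by simp)
        fun s hs => ?_
      exact (fT_mono hT1 (by linarith [hs.1]) (by nlinarith [hs.2])).trans h2
    rw [intervalIntegral.integral_const, smul_eq_mul] at i5
    have i6 : (y * lam - y) * K ≤ Real.sqrt η := by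
      have h3 : (y * lam - y) * K = y * K * (lam - 1) := by ring
      rw [h3]
      rw [div_le_iff₀ hκ] at hLK
      calc y * K * (lam - 1) ≤ y * K * (1 / L) :=
            mul_le_mul_of_nonneg_left hlam3 (by positivity)
        _ ≤ Real.sqrt η := by
            rw [mul_one_div, div_le_iff₀ hL0]
            linarith
    linarith
  have k1' := abs_le.1 k1
  have hyC : (y - 1) * ((C + 1) * Real.sqrt η) ≤ y * (C + 1) * Real.sqrt η := by
    have : 0 ≤ (C + 1) * Real.sqrt η := by positivity
    nlinarith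
  rw [abs_le]
  constructor <;> linarith

/-- the averages of the integrated windows -/
lemma Ph_av {c : ℝ} (hc : 0 < c) (hc1 : c < 1)
    (hA : ∀ b : ℝ, 1 < b → Tendsto (fun T => av c T fun n => Js n 1 b) atTop (𝓝 (b - 1)))
    {y : ℝ} (hy : 1 < y) :
    Tendsto (fun T => av c T fun n => Ph y n) atTop (𝓝 ((y - 1) ^ 2 / 2)) := by
  have hA' : ∀ b : ℝ, 1 < b → Tendsto (fun T => avf c fT T b) atTop (𝓝 (b - 1)) := by
    intro b hb
    refine (hA b hb).congr' ?_
    filter_upwards [ev_av hc (eventually_gt_atTop 1)] with T hT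
    unfold av avf
    congr 1
    exact Finset.sum_congr rfl fun n hn => (fT_Js (hT n hn) hb.le).symm
  have e1 : ∫ s in (1 : ℝ)..y, (s - 1) = (y - 1) ^ 2 / 2 := by
    rw [intervalIntegral.integral_sub (by simp) (by simp), integral_id,
      intervalIntegral.integral_const, smul_eq_mul]
    ring
  have h1 : Tendsto (fun T => ∫ s in (1 : ℝ)..y, avf c fT T s) atTop
      (𝓝 (∫ s in (1 : ℝ)..y, (s - 1))) := by
    refine intervalIntegral.tendsto_integral_filter_of_dominated_convergence (fun _ => y) ?_ ?_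
      (by simp) ?_
    · filter_upwards [ev_av hc (eventually_ge_atTop 1)] with T hT
      have : Continuous fun s => avf c fT T s := by
        unfold avf
        exact (continuous_finsetSum _ fun (n : ℕ) hn => fT_cont (hT n hn)).div_const _
      exact this.aestronglyMeasurable
    · filter_upwards [ev_av hc (eventually_gt_atTop 1),
        (hA' y hy).eventually (gt_mem_nhds (show y - 1 < y by linarith))] with T hT hTy
      refine ae_of_all _ fun s hs => ?_
      rw [uIoc_of_le hy.le] at hs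
      have h2 : 0 ≤ avf c fT T s :=
        div_nonneg (Finset.sum_nonneg fun n hn => fT_nonneg (hT n hn) hs.1.le) (Nat.cast_nonneg _)
      have h3 : avf c fT T s ≤ avf c fT T y := by
        unfold avf
        exact div_le_div_of_nonneg_right
          (Finset.sum_le_sum fun n hn => fT_mono (hT n hn) hs.1.le hs.2) (Nat.cast_nonneg _)
      rw [Real.norm_of_nonneg h2]
      linarith
    · refine ae_of_all _ fun s hs => ?_
      rw [uIoc_of_le hy.le] at hs
      exact hA' s hs.1
  rw [e1] at h1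
  refine h1.congr' ?_
  filter_upwards [ev_av hc (eventually_ge_atTop 1)] with T hT
  unfold avf av Ph
  rw [intervalIntegral.integral_div, intervalIntegral.integral_finsetSum fun (n : ℕ) hn =>
    (fT_cont (hT n hn)).intervalIntegrable _ _]

/-- **from the averages to the sharp windows** -/
theorem Js_of_av (RH : RiemannHypothesis) (hD : S_DEAVG) {c : ℝ} (hc : 0 < c) (hc1 : c < 1)
    (hA : ∀ b : ℝ, 1 < b → Tendsto (fun T => av c T fun n => Js n 1 b) atTop (𝓝 (b - 1)))
    {b : ℝ} (hb : 1 < b) : Tendsto (fun T => Js T 1 b) atTop (𝓝 (b - 1)) := by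
  have hP : ∀ y : ℝ, 1 < y → Tendsto (Ph y) atTop (𝓝 ((y - 1) ^ 2 / 2)) := by
    intro y hy
    obtain ⟨C, hC, hS⟩ := Ph_slow RH hy
    obtain ⟨K, hK, hSel⟩ := Sel_JQ RH hy.le
    refine hD (Ph y) ((y - 1) ^ 2 / 2) c (max C (y * K)) hc hc1 ?_ ?_ (Ph_av hc hc1 hA hy)
    · filter_upwards [hSel, eventually_ge_atTop 10] with T hT h10
      have hT1 : 1 < T := by linarith
      refine le_trans ?_ (le_max_right _ _)
      unfold Ph
      have h3 := intervalIntegral.norm_integral_le_of_norm_le_const (a := (1 : ℝ)) (b := y)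
        (f := fun s => fT T s) (C := K) fun s hs => by
          rw [uIoc_of_le hy.le] at hs
          rw [Real.norm_of_nonneg (fT_nonneg hT1 hs.1.le)]
          exact (fT_mono hT1 hs.1.le hs.2).trans hT
      rw [Real.norm_eq_abs, abs_of_pos (show 0 < y - 1 by linarith)] at h3
      nlinarith
    · intro η hη hη1
      filter_upwards [hS η hη hη1] with T hT T' hT'
      exact (hT T' hT').trans (mul_le_mul_of_nonneg_right (le_max_left _ _) (Real.sqrt_nonneg _))
  rw [Metric.tendsto_nhds]
  intro ε hε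
  obtain ⟨δ, hδ⟩ : ∃ δ : ℝ, δ = min (ε / 2) ((b - 1) / 2) := ⟨_, rfl⟩
  have hδ0 : 0 < δ := by rw [hδ]; exact lt_min (by linarith) (by linarith)
  have hδ1 : δ ≤ ε / 2 := by rw [hδ]; exact min_le_left _ _
  have hδ2 : δ ≤ (b - 1) / 2 := by rw [hδ]; exact min_le_right _ _
  have l1 := (hP (b + δ) (by linarith)).sub (hP b hb)
  have l2 := (hP b hb).sub (hP (b - δ) (by linarith))
  have e1 : (b + δ - 1) ^ 2 / 2 - (b - 1) ^ 2 / 2 = δ * (b - 1 + δ / 2) := by ring
  have e2 : (b - 1) ^ 2 / 2 - (b - δ - 1) ^ 2 / 2 = δ * (b - 1 - δ / 2) := by ring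
  rw [e1] at l1
  rw [e2] at l2
  filter_upwards [l1.eventually (gt_mem_nhds (show δ * (b - 1 + δ / 2) < δ * (b - 1 + δ) by
      nlinarith)),
    l2.eventually (lt_mem_nhds (show δ * (b - 1 - δ) < δ * (b - 1 - δ / 2) by nlinarith)),
    eventually_ge_atTop 10] with T t1 t2 hT
  have hT1 : 1 < T := by linarith
  have c0 := fT_cont hT1.le
  rw [← fT_Js hT1 hb.le]
  have a1 : Ph (b + δ) T - Ph b T = ∫ s in b..(b + δ), fT T s :=
    intervalIntegral.integral_interval_sub_left (c0.intervalIntegrable _ _)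
      (c0.intervalIntegrable _ _)
  have a2 : Ph b T - Ph (b - δ) T = ∫ s in (b - δ)..b, fT T s :=
    intervalIntegral.integral_interval_sub_left (c0.intervalIntegrable _ _)
      (c0.intervalIntegrable _ _)
  rw [a1] at t1
  rw [a2] at t2
  have b1 : ∫ s in b..(b + δ), fT T b ≤ ∫ s in b..(b + δ), fT T s :=
    intervalIntegral.integral_mono_on (by linarith) (by simp) (c0.intervalIntegrable _ _)
      fun s hs => fT_mono hT1 hb.le hs.1
  have b2 : ∫ s in (b - δ)..b, fT T s ≤ ∫ s in (b - δ)..b, fT T b :=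
    intervalIntegral.integral_mono_on (by linarith) (c0.intervalIntegrable _ _) (by simp)
      fun s hs => fT_mono hT1 (by linarith [hs.1]) hs.2
  rw [intervalIntegral.integral_const, smul_eq_mul] at b1 b2
  have b1' : δ * fT T b < δ * (b - 1 + δ) := by
    have : b + δ - b = δ := by ring
    rw [this] at b1
    linarith
  have b2' : δ * (b - 1 - δ) < δ * fT T b := by
    have : b - (b - δ) = δ := by ring
    rw [this] at b2
    linarith
  have c1 := lt_of_mul_lt_mul_left b1' hδ0.le
  have c2 := lt_of_mul_lt_mul_left b2' hδ0.le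
  rw [Real.dist_eq, abs_lt]
  constructor <;> linarith

end Pool.Agent.NH10.FH
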