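import Pool.Agent.NH10.FH.Stm

/-! # Selberg's bound under the Riemann hypothesis, and slow variation -/

set_option autoImplicit false
set_option maxHeartbeats 4000000

open Filter Topology Set MeasureTheory

namespace Pool.Agent.NH10.FH

open Pool.Agent.NH10.SV
open Pool.Agent.Y749.Rig hiding PT
open Pool.Agent.NH10.GM

/-- the smoothed part -/
lemma SG_part {T K α β B : ℝ} (hT : 10 ≤ T) (hL : 2 ≤ Real.log T) (hα : 3 ≤ α) (hαβ : α ≤ β)
    (hβ : β ≤ B * Real.log T)
    (hK : ∫ u in (2 : ℝ)..((B + 1) * Real.log T), Vs T u ^ 2 ≤ K) :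
    ∫ u in α..β, Real.exp (-u) * SG T T u ^ 2 ≤ 2 * K := by
  have hT0 : 0 < T := by linarith
  obtain ⟨h1, h2, h3⟩ := hT_le hT
  obtain ⟨h, hh⟩ : ∃ h : ℝ, h = Real.log (1 + 1 / T) := ⟨_, rfl⟩
  rw [← hh] at h1 h2 h3
  have hhT : h ≤ 1 / T := by
    have := Real.log_le_sub_one_of_pos (show 0 < 1 + 1 / T by positivity)
    rw [hh]
    linarith
  obtain ⟨d, hd⟩ : ∃ d : ℝ, d = 1 / (2 * T ^ 2) := ⟨_, rfl⟩
  have hd0 : 0 < d := by rw [hd]; positivity
  have hd1 : d ≤ 1 / 2 := by
    rw [hd]
    apply one_div_le_one_div_of_le (by norm_num)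
    nlinarith
  have cV : Continuous (Vs T) := Vs_cont hT0
  have c0 : Continuous fun u => Vs T u ^ 2 := cV.pow 2
  have cN : Continuous (Nn T) := Nn_cont hT0
  have cS : Continuous (SG T T) := SG_cont (by linarith) hT0
  -- the pointwise bound
  have hpt : ∀ u ∈ Icc α β, Real.exp (-u) * SG T T u ^ 2 ≤
      2 * T ^ 2 * h * ∫ r in (0 : ℝ)..h, Vs T (u + r + d) ^ 2 := by
    intro u _
    have e1 : SG T T u = ∫ r in (0 : ℝ)..h, Nn T (u + r) := by
      rw [SG_prim (by linarith) hT0, ← hh]
      rw [intervalIntegral.integral_interval_sub_left (cN.intervalIntegrable _ _)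
        (cN.intervalIntegrable _ _)]
      rw [intervalIntegral.integral_comp_add_left (fun v => Nn T v) u, add_zero]
    have e2 := cs_prim (f := fun r => Nn T (u + r)) (by fun_prop) h
    rw [← e1] at e2
    have e3 : Real.exp (-u) * (∫ r in (0 : ℝ)..h, Nn T (u + r) ^ 2) ≤
        ∫ r in (0 : ℝ)..h, 2 * T ^ 2 * Vs T (u + r + d) ^ 2 := by
      rw [← intervalIntegral.integral_const_mul]
      refine intervalIntegral.integral_mono_on h1.le
        (Continuous.intervalIntegrable (by fun_prop) _ _)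
        (Continuous.intervalIntegrable (by fun_prop) _ _) fun r hr => ?_
      have n1 := Nn_sq hT (u + r)
      rw [← hd] at n1
      have e4 : Real.exp (-u) = Real.exp r * Real.exp (-(u + r)) := by
        rw [← Real.exp_add]; congr 1; ring
      have e5 : Real.exp r ≤ 2 := le_trans (Real.exp_le_exp.2 (by linarith [hr.2])) h3
      rw [e4, mul_assoc]
      calc Real.exp r * (Real.exp (-(u + r)) * Nn T (u + r) ^ 2) ≤
            2 * (T ^ 2 * Vs T (u + r + d) ^ 2) := mul_le_mul e5 n1 (by positivity) (by norm_num)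
        _ = _ := by ring
    rw [intervalIntegral.integral_const_mul] at e3
    calc Real.exp (-u) * SG T T u ^ 2 ≤
          Real.exp (-u) * (h * ∫ r in (0 : ℝ)..h, Nn T (u + r) ^ 2) :=
          mul_le_mul_of_nonneg_left e2 (Real.exp_pos _).le
      _ = h * (Real.exp (-u) * ∫ r in (0 : ℝ)..h, Nn T (u + r) ^ 2) := by ring
      _ ≤ h * (2 * T ^ 2 * ∫ r in (0 : ℝ)..h, Vs T (u + r + d) ^ 2) :=
          mul_le_mul_of_nonneg_left e3 h1.le
      _ = _ := by ring
  have cI : Continuous fun u => ∫ r in (0 : ℝ)..h, Vs T (u + r + d) ^ 2 :=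
    intervalIntegral.continuous_parametric_intervalIntegral_of_continuous' (by fun_prop) _ _
  have k1 : ∫ u in α..β, Real.exp (-u) * SG T T u ^ 2 ≤
      ∫ u in α..β, 2 * T ^ 2 * h * ∫ r in (0 : ℝ)..h, Vs T (u + r + d) ^ 2 :=
    intervalIntegral.integral_mono_on hαβ (Continuous.intervalIntegrable (by fun_prop) _ _)
      ((continuous_const.mul cI).intervalIntegrable _ _) hpt
  rw [intervalIntegral.integral_const_mul] at k1
  have k2 : ∫ u in α..β, ∫ r in (0 : ℝ)..h, Vs T (u + r + d) ^ 2 =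
      ∫ r in (0 : ℝ)..h, ∫ u in α..β, Vs T (u + r + d) ^ 2 := by
    refine intervalIntegral_intervalIntegral_swap ?_
    have c2 : Continuous (Function.uncurry fun u r : ℝ => Vs T (u + r + d) ^ 2) := by
      unfold Function.uncurry
      fun_prop
    exact (c2.continuousOn.integrableOn_compact
      ((isCompact_uIcc (a := α) (b := β)).prod (isCompact_uIcc (a := (0 : ℝ)) (b := h)))).mono_set
      (Set.prod_mono uIoc_subset_uIcc uIoc_subset_uIcc)
  have k3 : ∫ r in (0 : ℝ)..h, (∫ u in α..β, Vs T (u + r + d) ^ 2) ≤ ∫ r in (0 : ℝ)..h, K := by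
    have c3 : Continuous fun r => ∫ u in α..β, Vs T (u + r + d) ^ 2 :=
      intervalIntegral.continuous_parametric_intervalIntegral_of_continuous' (by fun_prop) _ _
    refine intervalIntegral.integral_mono_on h1.le (c3.intervalIntegrable _ _) (by simp)
      fun r hr => ?_
    have e6 : ∫ u in α..β, Vs T (u + r + d) ^ 2 = ∫ u in (α + (r + d))..(β + (r + d)), Vs T u ^ 2 := by
      rw [← intervalIntegral.integral_comp_add_right (fun u => Vs T u ^ 2)]
      refine intervalIntegral.integral_congr fun u _ => ?_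
      show Vs T (u + r + d) ^ 2 = Vs T (u + (r + d)) ^ 2
      rw [add_assoc]
    rw [e6]
    refine le_trans ?_ hK
    exact intervalIntegral.integral_mono_interval (by linarith [hr.1]) (by linarith)
      (by nlinarith [hr.2]) (ae_of_all _ fun u => sq_nonneg _) (c0.intervalIntegrable _ _)
  rw [intervalIntegral.integral_const, smul_eq_mul, sub_zero] at k3
  rw [k2] at k1
  have hK0 : 0 ≤ K := le_trans (intervalIntegral.integral_nonneg (by nlinarith)
    fun u _ => sq_nonneg _) hK
  have hh2 : h * h ≤ 1 / T * (1 / T) := mul_le_mul hhT hhT h1.le (by positivity)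
  have k4 : 2 * T ^ 2 * h * (h * K) ≤ 2 * K := by
    have : 2 * T ^ 2 * h * (h * K) = (T ^ 2 * (h * h)) * (2 * K) := by ring
    rw [this]
    have h5 : T ^ 2 * (h * h) ≤ 1 := by
      calc T ^ 2 * (h * h) ≤ T ^ 2 * (1 / T * (1 / T)) :=
            mul_le_mul_of_nonneg_left hh2 (by positivity)
        _ = 1 := by field_simp
    nlinarith
  have k5 := mul_le_mul_of_nonneg_left k3 (show 0 ≤ 2 * T ^ 2 * h by positivity)
  linarith

/-- **Selberg's bound** -/
theorem Sel (RH : RiemannHypothesis) {B : ℝ} (hB : 1 ≤ B) : ∃ C : ℝ, 0 < C ∧ ∀ᶠ T in atTop,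
    ∀ α β : ℝ, 3 ≤ α → α ≤ β → β ≤ B * Real.log T →
      ∫ u in α..β, Qu T u ≤ C * (Real.log T ^ 2 / T) := by
  obtain ⟨C, hC, hH⟩ := high RH hB
  obtain ⟨K, hK, hU⟩ := UB RH (show 1 ≤ B + 1 by linarith)
  refine ⟨2 * C + 4 * K, by positivity, ?_⟩
  filter_upwards [hH, hU, eventually_ge_atTop 10,
    Real.tendsto_log_atTop.eventually_ge_atTop 2] with T h1 h2 hT hL α β hα hαβ hβ
  have hT0 : 0 < T := by linarith
  have h3 := h1 T hT α β hα hαβ hβ
  have h4 := SG_part hT hL hα hαβ hβ h2
  have cS : Continuous (SG T T) := SG_cont (by linarith) hT0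
  have iW : IntervalIntegrable (fun u => Real.exp (-u) * SG T T u ^ 2) volume α β :=
    Continuous.intervalIntegrable (by fun_prop) _ _
  have iQ : IntervalIntegrable (fun u => Qu T u) volume α β := Qu_ii (by linarith) _ _
  have iD : IntervalIntegrable (fun u => Real.exp (-u) * (Su T u - SG T T u) ^ 2)
      volume α β := by
    have h2 : IntervalIntegrable (fun u => 2 * Qu T u +
        2 * (Real.exp (-u) * SG T T u ^ 2)) volume α β := (iQ.const_mul 2).add (iW.const_mul 2)
    refine h2.mono_fun' ?_ ?_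
    · have m1 := Su_meas T
      have m2 := cS.measurable
      exact Measurable.aestronglyMeasurable (by fun_prop)
    · refine ae_of_all _ fun u => ?_
      simp only
      rw [Real.norm_of_nonneg (by positivity)]
      unfold Qu
      have h3 : (Su T u - SG T T u) ^ 2 ≤ 2 * Su T u ^ 2 + 2 * SG T T u ^ 2 := by
        nlinarith [sq_nonneg (Su T u + SG T T u)]
      have h4 := mul_le_mul_of_nonneg_left h3 (Real.exp_pos (-u)).le
      linarith
  have h5 : ∫ u in α..β, Qu T u ≤ ∫ u in α..β,
      (2 * (Real.exp (-u) * (Su T u - SG T T u) ^ 2) + 2 * (Real.exp (-u) * SG T T u ^ 2)) := by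
    refine intervalIntegral.integral_mono_on hαβ iQ ((iD.const_mul _).add (iW.const_mul _))
      fun u _ => ?_
    unfold Qu
    have h6 : Su T u ^ 2 ≤ 2 * (Su T u - SG T T u) ^ 2 + 2 * SG T T u ^ 2 := by
      nlinarith [sq_nonneg (Su T u - 2 * SG T T u)]
    have h7 := mul_le_mul_of_nonneg_left h6 (Real.exp_pos (-u)).le
    linarith
  rw [intervalIntegral.integral_add (iD.const_mul _) (iW.const_mul _),
    intervalIntegral.integral_const_mul, intervalIntegral.integral_const_mul] at h5
  have e : (2 * C + 4 * K) * (Real.log T ^ 2 / T) = 2 * (C * (Real.log T ^ 2 / T)) +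
    2 * (2 * (K * (Real.log T ^ 2 / T))) := by ring
  rw [e]
  linarith

end Pool.Agent.NH10.FH
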