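import Pool.Agent.NH10.FH.Sel

/-! # The normalised mean square varies slowly -/

set_option autoImplicit false
set_option maxHeartbeats 4000000

open Filter Topology Set MeasureTheory

namespace Pool.Agent.NH10.FH

open Pool.Agent.NH10.SV
open Pool.Agent.Y749.Rig hiding PT
open Pool.Agent.NH10.GM

lemma lg_anti {x y : ℝ} (hx : 10 ≤ x) (hxy : x ≤ y) :
    Real.log y ^ 2 / y ≤ Real.log x ^ 2 / x := by
  have he : Real.exp 2 ≤ 10 := by
    have h1 := Real.exp_one_lt_d9
    have h2 : Real.exp 2 = Real.exp 1 * Real.exp 1 := by rw [← Real.exp_add]; norm_num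
    rw [h2]
    have := Real.exp_pos 1
    nlinarith
  have h1 := Real.log_div_sqrt_antitoneOn (show x ∈ {x | Real.exp 2 ≤ x} from he.trans hx)
    (show y ∈ {x | Real.exp 2 ≤ x} from he.trans (hx.trans hxy)) hxy
  have h0 : 0 ≤ Real.log y / Real.sqrt y :=
    div_nonneg (Real.log_nonneg (by linarith)) (Real.sqrt_nonneg _)
  have h2 := pow_le_pow_left₀ h0 h1 2
  rwa [div_pow, div_pow, Real.sq_sqrt (by linarith), Real.sq_sqrt (by linarith)] at h2

lemma Su_add {T T' : ℝ} (hT : 0 < T) (hTT : T < T') (u : ℝ) :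
    Su T u = Su T' u + Su (T * (T' + 1) / (T' - T)) (u + Real.log (1 + 1 / T')) := by
  have hT' : 0 < T' := by linarith
  have h1 : 0 < T' - T := by linarith
  have h2 : 0 < 1 + 1 / T' := by positivity
  obtain ⟨y, hy⟩ : ∃ y : ℝ, y = Real.exp u := ⟨_, rfl⟩
  have e1 : Real.exp (u + Real.log (1 + 1 / T')) = y + y / T' := by
    rw [Real.exp_add, Real.exp_log h2, ← hy]
    ring
  unfold Su Sx
  rw [e1, ← hy]
  have e3 : (y + y / T') / (T * (T' + 1) / (T' - T)) = y / T - y / T' := by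
    field_simp
  have e2 : y + y / T' + (y + y / T') / (T * (T' + 1) / (T' - T)) = y + y / T := by
    rw [e3]
    ring
  rw [e2, e3]
  ring

/-- **slow variation** -/
theorem slow (RH : RiemannHypothesis) {B : ℝ} (hB : 1 ≤ B) : ∃ C : ℝ, 0 < C ∧
    ∀ η : ℝ, 0 < η → η ≤ 1 → ∀ᶠ T in atTop, ∀ T' ∈ Icc T ((1 + η) * T), ∀ α β : ℝ,
      3 ≤ α → α ≤ β → β ≤ B * Real.log T → |JQ T' α β - JQ T α β| ≤ C * Real.sqrt η := by
  obtain ⟨C, hC, hS⟩ := Sel RH (show 1 ≤ B + 1 by linarith)
  rw [eventually_atTop] at hS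
  obtain ⟨T₀, hS⟩ := hS
  refine ⟨18 * C, by positivity, fun η hη hη1 => ?_⟩
  filter_upwards [eventually_ge_atTop T₀, eventually_ge_atTop 10, eventually_ge_atTop (1 / η)]
    with T hTT0 hT hTη T' hT' α β hα hαβ hβ
  have hT0 : 0 < T := by linarith
  have hT1 : 1 < T := by linarith
  have hL := one_lt_log (show 3 ≤ T by linarith)
  have hL0 : 0 < Real.log T := by linarith
  have hκ : 0 < Real.sqrt η := Real.sqrt_pos.2 hη
  have hκκ : Real.sqrt η * Real.sqrt η = η := Real.mul_self_sqrt hη.le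
  have hκ1 : Real.sqrt η ≤ 1 := by
    exact Real.sqrt_le_one.2 hη1
  rcases eq_or_lt_of_le hT'.1 with h0 | h0
  · rw [← h0, sub_self, abs_zero]
    positivity
  have hT'0 : 0 < T' := by linarith
  have hT'1 : 1 < T' := by linarith
  have hd : 0 < T' - T := by linarith
  obtain ⟨R, hR⟩ : ∃ R : ℝ, R = T * (T' + 1) / (T' - T) := ⟨_, rfl⟩
  obtain ⟨s, hs⟩ : ∃ s : ℝ, s = Real.log (1 + 1 / T') := ⟨_, rfl⟩
  have hadd : ∀ u, Su T u = Su T' u + Su R (u + s) := fun u => by
    rw [hR, hs]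
    exact Su_add hT0 h0 u
  obtain ⟨s1, s2, s3⟩ := hT_le (show 10 ≤ T' by linarith)
  rw [← hs] at s1 s2 s3
  have s4 : Real.exp s ≤ 2 := le_trans (Real.exp_le_exp.2 (by linarith)) s3
  have hRT : T / η ≤ R := by
    rw [hR, div_le_div_iff₀ hη hd]
    have h1 : T' - T ≤ η * T := by linarith [hT'.2]
    calc T * (T' - T) ≤ T * (η * T) := mul_le_mul_of_nonneg_left h1 hT0.le
      _ = T * T * η := by ring
      _ ≤ T * (T' + 1) * η := by gcongr; linarith
  have hTR : T ≤ T / η := by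
    rw [le_div_iff₀ hη]
    nlinarith
  have hR10 : 10 ≤ R := hT.trans (hTR.trans hRT)
  have hlogR : Real.log T ≤ Real.log R := Real.log_le_log hT0 (hTR.trans hRT)
  -- the third part
  have hE1 := hS R (hTT0.trans (hTR.trans hRT)) (α + s) (β + s) (by linarith) (by linarith)
    (by
      have h1 := mul_le_mul_of_nonneg_left hlogR (show 0 ≤ B by linarith)
      have h2 : 1 ≤ Real.log R := by linarith
      linarith)
  have hE2 : Real.log R ^ 2 / R ≤ 4 * η * (Real.log T ^ 2 / T) := by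
    refine (lg_anti (hT.trans hTR) hRT).trans ?_
    have h1 : Real.log (T / η) ≤ 2 * Real.log T := by
      rw [div_eq_mul_one_div, Real.log_mul hT0.ne' (by positivity)]
      have := Real.log_le_log (show 0 < 1 / η by positivity) hTη
      linarith
    have h2 : 0 ≤ Real.log (T / η) := Real.log_nonneg (by linarith)
    calc Real.log (T / η) ^ 2 / (T / η) ≤ (2 * Real.log T) ^ 2 / (T / η) := by gcongr
      _ = _ := by field_simp; norm_num
  obtain ⟨E, hE⟩ : ∃ E : ℝ, E = ∫ u in α..β, Real.exp (-u) * Su R (u + s) ^ 2 := ⟨_, rfl⟩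
  obtain ⟨M, hM⟩ : ∃ M : ℝ, M = Real.log T ^ 2 / T := ⟨_, rfl⟩
  have hM0 : 0 < M := by rw [hM]; positivity
  have iR : IntervalIntegrable (fun u => Qu R (u + s)) volume α β := by
    have := (Qu_ii (show 1 ≤ R by linarith) (α + s) (β + s)).comp_add_right s
    simpa using this
  have eR : ∀ u, Real.exp (-u) * Su R (u + s) ^ 2 = Real.exp s * Qu R (u + s) := by
    intro u
    unfold Qu
    rw [← mul_assoc, ← Real.exp_add]
    congr 2
    ring
  have iE : IntervalIntegrable (fun u => Real.exp (-u) * Su R (u + s) ^ 2) volume α β := by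
    simp_rw [eR]
    exact iR.const_mul _
  have hEb : E ≤ 8 * C * η * M := by
    rw [hE]
    simp_rw [eR]
    rw [intervalIntegral.integral_const_mul,
      intervalIntegral.integral_comp_add_right (fun u => Qu R u)]
    have h1 : 0 ≤ ∫ u in (α + s)..(β + s), Qu R u :=
      intervalIntegral.integral_nonneg (by linarith) fun u _ => Qu_nonneg _ _
    have h2 : ∫ u in (α + s)..(β + s), Qu R u ≤ C * (4 * η * M) := by
      rw [hM]
      exact hE1.trans (mul_le_mul_of_nonneg_left hE2 hC.le)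
    calc Real.exp s * ∫ u in (α + s)..(β + s), Qu R u ≤ 2 * (C * (4 * η * M)) :=
          mul_le_mul s4 h2 h1 (by norm_num)
      _ = _ := by ring
  have hE0 : 0 ≤ E := by
    rw [hE]
    exact intervalIntegral.integral_nonneg hαβ fun u _ => by positivity
  obtain ⟨Q, hQ⟩ : ∃ Q : ℝ, Q = ∫ u in α..β, Qu T u := ⟨_, rfl⟩
  obtain ⟨Q', hQ'⟩ : ∃ Q' : ℝ, Q' = ∫ u in α..β, Qu T' u := ⟨_, rfl⟩
  have iQ : IntervalIntegrable (fun u => Qu T u) volume α β := Qu_ii hT1.le _ _
  have iQ' : IntervalIntegrable (fun u => Qu T' u) volume α β := Qu_ii hT'1.le _ _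
  have hQ0 : 0 ≤ Q := by
    rw [hQ]
    exact intervalIntegral.integral_nonneg hαβ fun u _ => Qu_nonneg _ _
  have hQ'0 : 0 ≤ Q' := by
    rw [hQ']
    exact intervalIntegral.integral_nonneg hαβ fun u _ => Qu_nonneg _ _
  have hQb : Q ≤ C * M := by
    rw [hQ, hM]
    exact hS T hTT0 α β hα hαβ (by linarith)
  have hQ'b : Q' ≤ C * M := by
    rw [hQ', hM]
    have hlog' : Real.log T ≤ Real.log T' := Real.log_le_log hT0 h0.le
    exact (hS T' (hTT0.trans h0.le) α β hα hαβ (by
      have h1 := mul_le_mul_of_nonneg_left hlog' (show 0 ≤ B by linarith)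
      linarith)).trans
      (mul_le_mul_of_nonneg_left (lg_anti hT h0.le) hC.le)
  obtain ⟨κ, hκe⟩ : ∃ κ : ℝ, κ = Real.sqrt η := ⟨_, rfl⟩
  rw [← hκe] at hκ hκκ hκ1 ⊢
  have hsq : ∀ x y : ℝ, (x + y) ^ 2 ≤ (1 + κ) * x ^ 2 + (1 + 1 / κ) * y ^ 2 := by
    intro x y
    have h2 : 0 ≤ (κ * x - y) ^ 2 / κ := by positivity
    have h3 : (1 + κ) * x ^ 2 + (1 + 1 / κ) * y ^ 2 - (x + y) ^ 2 = (κ * x - y) ^ 2 / κ := by
      field_simp
      ring
    linarith
  have k1 : Q ≤ (1 + κ) * Q' + (1 + 1 / κ) * E := by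
    rw [hQ, hQ', hE, ← intervalIntegral.integral_const_mul, ← intervalIntegral.integral_const_mul,
      ← intervalIntegral.integral_add (iQ'.const_mul _) (iE.const_mul _)]
    refine intervalIntegral.integral_mono_on hαβ iQ ((iQ'.const_mul _).add (iE.const_mul _))
      fun u _ => ?_
    unfold Qu
    have h3 := mul_le_mul_of_nonneg_left (hsq (Su T' u) (Su R (u + s))) (Real.exp_pos (-u)).le
    rw [← hadd u] at h3
    linarith
  have k2 : Q' ≤ (1 + κ) * Q + (1 + 1 / κ) * E := by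
    rw [hQ, hQ', hE, ← intervalIntegral.integral_const_mul, ← intervalIntegral.integral_const_mul,
      ← intervalIntegral.integral_add (iQ.const_mul _) (iE.const_mul _)]
    refine intervalIntegral.integral_mono_on hαβ iQ' ((iQ.const_mul _).add (iE.const_mul _))
      fun u _ => ?_
    unfold Qu
    have h3 := mul_le_mul_of_nonneg_left (hsq (Su T u) (-Su R (u + s))) (Real.exp_pos (-u)).le
    have h4 : Su T u + -Su R (u + s) = Su T' u := by rw [hadd u]; ring
    rw [h4, neg_sq] at h3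
    linarith
  have k3 : (1 + 1 / κ) * E ≤ 16 * C * κ * M := by
    have h1 : 1 + 1 / κ ≤ 2 / κ := by
      rw [le_div_iff₀ hκ]
      have : (1 + 1 / κ) * κ = κ + 1 := by field_simp
      rw [this]
      linarith
    calc (1 + 1 / κ) * E ≤ 2 / κ * (8 * C * η * M) := mul_le_mul h1 hEb hE0 (by positivity)
      _ = _ := by rw [← hκκ]; field_simp; norm_num
  have k4 : Q - Q' ≤ 17 * C * κ * M := by
    have := mul_le_mul_of_nonneg_left hQ'b hκ.le
    linarith
  have k5 : Q' - Q ≤ 17 * C * κ * M := by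
    have := mul_le_mul_of_nonneg_left hQb hκ.le
    linarith
  have hCκ : 0 ≤ C * κ := mul_nonneg hC.le hκ.le
  -- the normalisation
  have n1 : T' / Real.log T' ^ 2 ≤ (1 + η) * (T / Real.log T ^ 2) := by
    have hlog' : Real.log T ≤ Real.log T' := Real.log_le_log hT0 h0.le
    calc T' / Real.log T' ^ 2 ≤ T' / Real.log T ^ 2 := by gcongr
      _ ≤ ((1 + η) * T) / Real.log T ^ 2 := by
          have := hT'.2
          gcongr
      _ = _ := by ring
  have n2 : T / Real.log T ^ 2 ≤ T' / Real.log T' ^ 2 := by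
    have hL' : 0 < Real.log T' := Real.log_pos hT'1
    have h1 := lg_anti hT h0.le
    rw [div_le_div_iff₀ hT'0 hT0] at h1
    rw [div_le_div_iff₀ (by positivity) (by positivity)]
    linarith
  have eM : T / Real.log T ^ 2 * M = 1 := by rw [hM]; field_simp
  obtain ⟨N, hN⟩ : ∃ N : ℝ, N = T / Real.log T ^ 2 := ⟨_, rfl⟩
  have hN0 : 0 < N := by rw [hN]; positivity
  unfold JQ
  rw [← hQ, ← hQ']
  obtain ⟨N', hN'⟩ : ∃ N' : ℝ, N' = T' / Real.log T' ^ 2 := ⟨_, rfl⟩
  rw [← hN, ← hN'] at n1 n2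
  rw [← hN] at eM
  rw [← hN, ← hN']
  have k6 : N * (Q - Q') ≤ 17 * C * κ := by
    have := mul_le_mul_of_nonneg_left k4 hN0.le
    have e : N * (17 * C * κ * M) = 17 * C * κ * (N * M) := by ring
    rw [e, eM, mul_one] at this
    exact this
  have k7 : N * (Q' - Q) ≤ 17 * C * κ := by
    have := mul_le_mul_of_nonneg_left k5 hN0.le
    have e : N * (17 * C * κ * M) = 17 * C * κ * (N * M) := by ring
    rw [e, eM, mul_one] at this
    exact this
  have k8 : N * Q' ≤ C := by
    have := mul_le_mul_of_nonneg_left hQ'b hN0.le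
    have e : N * (C * M) = C * (N * M) := by ring
    rw [e, eM, mul_one] at this
    exact this
  have hη2 : η ≤ κ := by
    have := mul_le_mul_of_nonneg_left hκ1 hκ.le
    rw [hκκ, mul_one] at this
    exact this
  rw [abs_le]
  constructor
  · have h1 : N * Q' ≤ N' * Q' := mul_le_mul_of_nonneg_right n2 hQ'0
    linarith
  · have h1 : N' * Q' ≤ (1 + η) * N * Q' := by
      have := mul_le_mul_of_nonneg_right n1 hQ'0
      linarith
    have h2 : η * (N * Q') ≤ κ * C := mul_le_mul hη2 k8 (mul_nonneg hN0.le hQ'0) hκ.le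
    linarith

end Pool.Agent.NH10.FH
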