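import Pool.Agent.NH10.SV.Fc

/-!
# Project FH (helper10): the variance of the primes in intervals of fixed length

`ψ(x; H)` is the sum of `Λ` over the interval of length `H` centred at `x`.  For `0 < c < 1` the mean
square of `ψ(x; H) - H` over `[cX, X]`, `H = X / T`, is expected to be `~ H log (X / H)`.  Statements of
the parts of the proof that the logarithmic averages of this are equivalent to the Riemann hypothesis
together with the pair correlation asymptotic; the sharp relative windows of `Pool.Agent.NH10.SV` are used.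
-/

set_option autoImplicit false
set_option linter.unusedVariables false

open Filter Topology Set MeasureTheory

namespace Pool.Agent.NH10.FH

open Pool.Agent.NH10.SV (Su Qu JQ Js)
open ArithmeticFunction (vonMangoldt)

/-- `ψ(x; H)`, the sum of `Λ(n)` over the integers `n ≥ 1` with `x - H/2 ≤ n ≤ x + H/2` -/
noncomputable def psiW (x H : ℝ) : ℝ :=
  ∑ n ∈ Finset.Icc ⌈x - H / 2⌉₊ ⌊x + H / 2⌋₊, vonMangoldt n

/-- the mean square of `ψ(x; H) - H` over `[cX, X]` -/
noncomputable def VH (c X H : ℝ) : ℝ :=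
  1 / ((1 - c) * X) * ∫ x in (c * X)..X, (psiW x H - H) ^ 2

/-- the logarithmic integral over `X ∈ [T^a, T^b]` of the ratio of the mean square and its expected
value `H log (X / H)`, `H = X / T` -/
noncomputable def W (c T a b : ℝ) : ℝ :=
  1 / Real.log T * ∫ X in (T ^ a)..(T ^ b), VH c X (X / T) / (X / T * Real.log T) / X

/-- the mean square over a window which moves with `τ` -/
noncomputable def Gw (τ α β : ℝ) : ℝ := ∫ v in α..β, Qu τ (v + Real.log τ)

/-- FH-FORM: the mean square over intervals of fixed length is an average over `τ` of the one over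
intervals of fixed relative length `1 / τ` -/
def S_FORM : Prop := (∀ α β : ℝ, Measurable fun τ => Gw τ α β) ∧
  ∀ c T a b : ℝ, 0 < c → c < 1 → 10 ≤ c * T → 1 ≤ a → a ≤ b →
  W c T a b = 1 / ((1 - c) * T * Real.log T ^ 2) *
    ∫ τ in (c * T - 1 / 2)..(T - 1 / 2), τ * Gw τ ((a - 1) * Real.log T) ((b - 1) * Real.log T)

/-- FH-RH: a bound for the averages implies the Riemann hypothesis -/
def S_RHW : Prop := S_FORM → ∀ c : ℝ, 0 < c → c < 1 →
  (∀ B : ℝ, 1 < B → ∃ C T₀ : ℝ, ∀ T : ℝ, T₀ ≤ T → W c T 1 B ≤ C) → RiemannHypothesis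

/-- the indices -/
noncomputable def II (c T : ℝ) : Finset ℕ := Finset.Ioc (⌊c * T⌋₊ + 1) (⌊T⌋₊ - 1)

/-- FH-DEAVG: from the averages to the values of a slowly varying function -/
def S_DEAVG : Prop := ∀ (J : ℝ → ℝ) (ℓ c C : ℝ), 0 < c → c < 1 →
  (∀ᶠ T in atTop, |J T| ≤ C) →
  (∀ η : ℝ, 0 < η → η ≤ 1 → ∀ᶠ T in atTop, ∀ T' ∈ Icc T ((1 + η) * T),
    |J T' - J T| ≤ C * Real.sqrt η) →
  Tendsto (fun T : ℝ => (∑ n ∈ II c T, J n) / ((II c T).card : ℝ)) atTop (𝓝 ℓ) →
  Tendsto J atTop (𝓝 ℓ)

end Pool.Agent.NH10.FH
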