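import Pool.Agent.NH13.LV.Defs

/-!
# Project FH, second part (helper10): the small values of `t` without von Koch's theorem

`ECR` is Cramér's bound for the mean square of `ψ(x) - x` with a power `X ^ ε`; it replaces `PsiB` in
`Pool.Agent.NH13.LV.S_lim`.
-/

set_option autoImplicit false
set_option linter.unusedVariables false

open MeasureTheory Filter Topology Set

namespace Pool.Agent.NH10.FH

open Pool.Agent.NH13.LV (S_G S_K Lim LimC)

/-- the mean square of the error of the prime number theorem -/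
def ECR : Prop := ∀ ε : ℝ, 0 < ε → ∃ C : ℝ, 0 < C ∧ ∀ X : ℝ, 1 ≤ X →
  ∫ x in (1 / 2)..X, (Chebyshev.psi x - x) ^ 2 / x ^ 2 ≤ C * X ^ ε

/-- the mean square of the error for the primes in `(x, 2x]` -/
def GrH : Prop := ∀ ε : ℝ, 0 < ε → ∃ C X₀ : ℝ, 0 < C ∧ 1 ≤ X₀ ∧ ∀ X : ℝ, X₀ ≤ X →
  ∫ x in X..(2 * X), (Chebyshev.psi (2 * x) - Chebyshev.psi x - x) ^ 2 / x ^ 2 ≤ C * X ^ ε

/-- FH-CRA -/
def S_CRA : Prop := GrH → ECR

/-- FH-LIME: `Pool.Agent.NH13.LV.S_lim` with `ECR` in place of `PsiB` -/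
def S_LIME : Prop := S_G → S_K → ECR → Lim → LimC

end Pool.Agent.NH10.FH
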