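import Pool.Agent.NH10.FH.Avg

/-! # The averages of the relative windows are bounded by the averages of the problem -/

set_option autoImplicit false
set_option maxHeartbeats 4000000

open Filter Topology Set MeasureTheory

namespace Pool.Agent.NH10.FH

open Pool.Agent.NH10.SV
open Pool.Agent.Y749.Rig hiding PT
open Pool.Agent.NH10.GM

lemma Gw_nonneg (τ : ℝ) {α β : ℝ} (h : α ≤ β) : 0 ≤ Gw τ α β :=
  intervalIntegral.integral_nonneg h fun _ _ => Qu_nonneg _ _

lemma Gw_shift (τ α β : ℝ) : Gw τ α β = ∫ u in (α + Real.log τ)..(β + Real.log τ), Qu τ u :=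
  intervalIntegral.integral_comp_add_right (fun u => Qu τ u) _

lemma Gw_JQ {τ : ℝ} (hτ : 1 < τ) (α β : ℝ) :
    τ * Gw τ α β = Real.log τ ^ 2 * JQ τ (α + Real.log τ) (β + Real.log τ) := by
  have hL := Real.log_pos hτ
  rw [Gw_shift]
  unfold JQ
  field_simp

lemma Gw_le {τ : ℝ} (hτ : 1 ≤ τ) {α β : ℝ} (h : α ≤ β) :
    Gw τ α β ≤ (β - α) * (400 * τ * Real.exp β) := by
  have hτ0 : 0 < τ := by linarith
  have i1 : IntervalIntegrable (fun v => Qu τ (v + Real.log τ)) volume α β := by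
    have := (Qu_ii hτ (α + Real.log τ) (β + Real.log τ)).comp_add_right (Real.log τ)
    simpa using this
  have h1 : Gw τ α β ≤ ∫ v in α..β, 400 * τ * Real.exp β := by
    refine intervalIntegral.integral_mono_on h i1 (by simp) fun v hv => ?_
    refine (Qu_le hτ _).trans ?_
    rw [Real.exp_add, Real.exp_log hτ0]
    have h2 := Real.exp_le_exp.2 hv.2
    calc 400 * (Real.exp v * τ) ≤ 400 * (Real.exp β * τ) := by gcongr
      _ = _ := by ring
  rw [intervalIntegral.integral_const, smul_eq_mul] at h1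
  exact h1

lemma tGw_ii {α β : ℝ} (hm : Measurable fun τ => Gw τ α β) (h : α ≤ β) {x y : ℝ} (hx : 1 ≤ x)
    (hy : 1 ≤ y) : IntervalIntegrable (fun τ => τ * Gw τ α β) volume x y := by
  rw [intervalIntegrable_iff]
  refine Measure.integrableOn_of_bounded
    (M := max x y * ((β - α) * (400 * max x y * Real.exp β))) (by
    rw [Set.uIoc]
    exact measure_Ioc_lt_top.ne) (measurable_id.mul hm).aestronglyMeasurable ?_
  refine (ae_restrict_mem measurableSet_uIoc).mono fun τ hτ => ?_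
  rw [Set.uIoc, mem_Ioc] at hτ
  have h1 : 1 ≤ τ := (le_min hx hy).trans hτ.1.le
  have h0 := Gw_nonneg τ h
  have h2 := Gw_le h1 h
  have hβα : 0 ≤ β - α := by linarith
  have hτm : τ ≤ max x y := hτ.2
  rw [Real.norm_of_nonneg (by positivity)]
  calc τ * Gw τ α β ≤ max x y * ((β - α) * (400 * τ * Real.exp β)) :=
        mul_le_mul hτm h2 h0 (by linarith)
    _ ≤ _ := by
        have : 0 ≤ max x y := by linarith
        gcongr

lemma sum_le_int {g : ℝ → ℝ} {F : ℕ → ℝ} {m M : ℕ} (hmM : m ≤ M)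
    (hg : ∀ x y : ℝ, (m : ℝ) ≤ x → (m : ℝ) ≤ y → IntervalIntegrable g volume x y)
    (h : ∀ n ∈ Finset.Ioc m M, F n ≤ ∫ x in ((n : ℝ) - 1)..n, g x) :
    ∑ n ∈ Finset.Ioc m M, F n ≤ ∫ x in (m : ℝ)..M, g x := by
  induction M, hmM using Nat.le_induction with
  | base => simp
  | succ M hM ih =>
    rw [Finset.sum_Ioc_succ_top hM]
    have h1 := ih fun n hn => h n (Finset.Ioc_subset_Ioc_right (Nat.le_succ M) hn)
    have h2 := h (M + 1) (Finset.mem_Ioc.2 ⟨by omega, le_rfl⟩)
    push_cast at h2 ⊢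
    rw [add_sub_cancel_right] at h2
    have hM' : (m : ℝ) ≤ M := by exact_mod_cast hM
    rw [← intervalIntegral.integral_add_adjacent_intervals (hg _ _ le_rfl hM')
      (hg _ _ hM' (by linarith))]
    linarith

/-- the ratio of the normalisations -/
lemma rho_lim {c : ℝ} (hc : 0 < c) (hc1 : c < 1) : Tendsto (fun T : ℝ =>
    (1 - c) * T / ((II c T).card : ℝ) * (Real.log T / Real.log (c * T)) ^ 2) atTop (𝓝 1) := by
  have h1c : 0 < 1 - c := by linarith
  have t1 : Tendsto (fun T : ℝ => (1 - c) * T / ((II c T).card : ℝ)) atTop (𝓝 1) := by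
    have hlo : Tendsto (fun T : ℝ => ((II c T).card : ℝ) / ((1 - c) * T)) atTop (𝓝 1) := by
      have h3 : Tendsto (fun T : ℝ => 1 - 3 / ((1 - c) * T)) atTop (𝓝 1) := by
        have : Tendsto (fun T : ℝ => 3 / ((1 - c) * T)) atTop (𝓝 0) :=
          Tendsto.div_atTop tendsto_const_nhds (lin_top h1c)
        simpa using this.const_sub 1
      refine tendsto_of_tendsto_of_tendsto_of_le_of_le' h3 tendsto_const_nhds ?_ ?_
      · filter_upwards [(lin_top h1c).eventually_ge_atTop 10] with T hT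
        have h4 := (II_card hc hc1 hT).1
        have h5 : 0 < (1 - c) * T := by linarith
        rw [le_div_iff₀ h5]
        rw [sub_mul, one_mul, div_mul_cancel₀ _ h5.ne']
        exact h4
      · filter_upwards [(lin_top h1c).eventually_ge_atTop 10] with T hT
        have h4 := (II_card hc hc1 hT).2
        have h5 : 0 < (1 - c) * T := by linarith
        rw [div_le_one h5]
        exact h4
    have h4 := hlo.inv₀ one_ne_zero
    rw [inv_one] at h4
    refine h4.congr fun T => ?_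
    rw [inv_div]
  have t2 : Tendsto (fun T : ℝ => Real.log T / Real.log (c * T)) atTop (𝓝 1) := by
    have h1 := (ratio_lim (c := c) hc).inv₀ one_ne_zero
    rw [inv_one] at h1
    refine h1.congr fun T => ?_
    rw [inv_div]
  have t3 := t1.mul (t2.pow 2)
  rw [one_pow, mul_one] at t3
  exact t3

/-- **the averages of the windows of relative length** -/
theorem Wup (RH : RiemannHypothesis) (hF : S_FORM) {c : ℝ} (hc : 0 < c) (hc1 : c < 1) {p q : ℝ}
    (hp : 1 ≤ p) (hpq : p < q) (hW : ∀ ε : ℝ, 0 < ε → ∀ᶠ T in atTop, W c T p q ≤ q - p + ε)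
    {ε : ℝ} (hε : 0 < ε) : ∀ᶠ T in atTop, av c T (fun n =>
      JQ n ((p - 1) * Real.log T + Real.log n) ((q - 1) * Real.log T + Real.log n - 1)) ≤
        q - p + ε := by
  obtain ⟨C, hC, hS⟩ := slow RH (show 1 ≤ 2 * q by linarith)
  obtain ⟨η, hηe⟩ : ∃ η : ℝ, η = min 1 ((ε / (4 * C)) ^ 2) := ⟨_, rfl⟩
  have hη0 : 0 < η := by rw [hηe]; exact lt_min one_pos (by positivity)
  have hη1 : η ≤ 1 := by rw [hηe]; exact min_le_left _ _
  have hηs : C * Real.sqrt η ≤ ε / 4 := by
    have h1 : Real.sqrt η ≤ Real.sqrt ((ε / (4 * C)) ^ 2) :=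
      Real.sqrt_le_sqrt (by rw [hηe]; exact min_le_right _ _)
    rw [Real.sqrt_sq (show 0 ≤ ε / (4 * C) by positivity)] at h1
    calc C * Real.sqrt η ≤ C * (ε / (4 * C)) := mul_le_mul_of_nonneg_left h1 hC.le
      _ = ε / 4 := by field_simp
  have hS := hS η hη0 hη1
  rw [eventually_atTop] at hS
  obtain ⟨N, hS⟩ := hS
  have hκ : (1 : ℝ) < 1 + (ε / 4) / (q - p + ε / 4) := by
    have : 0 < (ε / 4) / (q - p + ε / 4) := div_pos (by linarith) (by linarith)
    linarith
  filter_upwards [(rho_lim hc hc1).eventually (gt_mem_nhds hκ), hW (ε / 4) (by linarith),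
    (lin_top hc).eventually_ge_atTop N, (lin_top hc).eventually_ge_atTop 10,
    (lin_top hc).eventually_ge_atTop (1 / η),
    (lin_top (show 0 < 1 - c by linarith)).eventually_ge_atTop 10,
    (lin_top (show 0 < c ^ 2 by positivity)).eventually_ge_atTop 1,
    (Real.tendsto_log_atTop.comp (lin_top hc)).eventually_ge_atTop 3,
    (Real.tendsto_log_atTop).eventually_ge_atTop (1 / (q - p))] with T hρ hWT hN h10 hη h1c hc2 hl3 hLq
  have hcT0 : 0 < c * T := by linarith
  have hT0 : 0 < T := (mul_pos_iff_of_pos_left hc).1 hcT0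
  have hcT : c * T ≤ T := by nlinarith
  have hT1 : 1 < T := by linarith
  obtain ⟨L, hL⟩ : ∃ L : ℝ, L = Real.log T := ⟨_, rfl⟩
  obtain ⟨l, hl⟩ : ∃ l : ℝ, l = Real.log (c * T) := ⟨_, rfl⟩
  simp only [Function.comp] at hl3
  rw [← hl] at hl3
  rw [← hL] at hLq
  have hL2 : L ≤ 2 * l := by
    have h1 : T ≤ (c * T) ^ 2 := by nlinarith
    have h2 := Real.log_le_log hT0 h1
    rw [Real.log_pow, ← hL, ← hl] at h2
    push_cast at h2
    exact h2
  have hlL : l ≤ L := by rw [hl, hL]; exact Real.log_le_log hcT0 hcT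
  have hL0 : 0 < L := by linarith
  have hl0 : 0 < l := by linarith
  have hqp : 1 ≤ (q - p) * L := by
    rw [div_le_iff₀ (by linarith)] at hLq
    linarith
  obtain ⟨card1, card2⟩ := II_card hc hc1 h1c
  obtain ⟨k, hk⟩ : ∃ k : ℝ, k = ((II c T).card : ℝ) := ⟨_, rfl⟩
  rw [← hk] at card1 card2 hρ
  have hk0 : 0 < k := by linarith
  rw [← hL, ← hl] at hρ
  obtain ⟨α, hα⟩ : ∃ α : ℝ, α = (p - 1) * L := ⟨_, rfl⟩
  obtain ⟨β, hβ⟩ : ∃ β : ℝ, β = (q - 1) * L := ⟨_, rfl⟩
  have hα0 : 0 ≤ α := by rw [hα]; exact mul_nonneg (by linarith) hL0.le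
  have hαβ1 : α ≤ β - 1 := by rw [hα, hβ]; linarith
  have hαβ : α ≤ β := by linarith
  have hform := hF.2 c T p q hc hc1 h10 hp hpq.le
  rw [← hL, ← hα, ← hβ] at hform
  have hm := hF.1 α β
  rw [← hL, ← hα, ← hβ]
  -- the pointwise comparison
  have hpt : ∀ n ∈ II c T, ∀ τ ∈ Icc ((n : ℝ) - 1) n,
      l ^ 2 * (JQ n (α + Real.log n) (β + Real.log n - 1) - ε / 4) ≤ τ * Gw τ α β := by
    intro n hn τ hτ
    obtain ⟨n1, n2⟩ := II_mem hT0.le hn
    have hτc : c * T ≤ τ := by linarith [hτ.1]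
    have hτ10 : 10 ≤ τ := by linarith
    have hτ0 : 0 < τ := by linarith
    have hτn : τ ≤ n := hτ.2
    have hn0 : (0 : ℝ) < n := by linarith
    have hlτ : l ≤ Real.log τ := by rw [hl]; exact Real.log_le_log hcT0 hτc
    have hlogτn : Real.log τ ≤ Real.log n := Real.log_le_log hτ0 hτn
    have hnL : Real.log n ≤ L := by rw [hL]; exact Real.log_le_log hn0 (by linarith)
    have hn2 : Real.log n ≤ Real.log τ + 1 := by
      have h1 : (n : ℝ) ≤ τ * Real.exp 1 := by
        have := Real.exp_one_gt_d9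
        nlinarith [hτ.1]
      have h2 := Real.log_le_log hn0 h1
      rwa [Real.log_mul hτ0.ne' (Real.exp_pos 1).ne', Real.log_exp] at h2
    have hnη : (n : ℝ) ∈ Icc τ ((1 + η) * τ) := by
      refine ⟨hτn, ?_⟩
      have h1 : 1 ≤ η * τ := by
        rw [div_le_iff₀ hη0] at hη
        nlinarith
      linarith [hτ.1]
    have s1 := hS τ (hN.trans hτc) n hnη (α + Real.log n) (β + Real.log n - 1)
      (by linarith) (by linarith) (by
        have e1 : β + Real.log n ≤ q * L := by rw [hβ]; linarith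
        have e2 : q * L ≤ 2 * q * Real.log τ := by
          have : L ≤ 2 * Real.log τ := by linarith
          calc q * L ≤ q * (2 * Real.log τ) := mul_le_mul_of_nonneg_left this (by linarith)
            _ = _ := by ring
        linarith)
    have s2 := (abs_le.1 (s1.trans hηs)).2
    have s3 := JQ_mono (T := τ) (by linarith) (a := α + Real.log n) (b := β + Real.log n - 1)
      (a' := α + Real.log τ) (b' := β + Real.log τ) (by linarith) (by linarith) (by linarith)
    have s4 := JQ_nonneg (T := τ) (by linarith) (a := α + Real.log τ) (b := β + Real.log τ)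
      (by linarith)
    rw [Gw_JQ (by linarith)]
    have s5 : l ^ 2 ≤ Real.log τ ^ 2 := pow_le_pow_left₀ hl0.le hlτ 2
    calc l ^ 2 * (JQ n (α + Real.log n) (β + Real.log n - 1) - ε / 4) ≤
          l ^ 2 * JQ τ (α + Real.log τ) (β + Real.log τ) :=
          mul_le_mul_of_nonneg_left (by linarith) (by positivity)
      _ ≤ _ := mul_le_mul_of_nonneg_right s5 s4
  -- the sum
  obtain ⟨m₀, hm₀⟩ : ∃ m₀ : ℕ, m₀ = ⌊c * T⌋₊ + 1 := ⟨_, rfl⟩
  obtain ⟨m₁, hm₁⟩ : ∃ m₁ : ℕ, m₁ = ⌊T⌋₊ - 1 := ⟨_, rfl⟩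
  have hIIe : II c T = Finset.Ioc m₀ m₁ := by rw [hm₀, hm₁]; rfl
  have hm01 : m₀ ≤ m₁ := by
    by_contra hcon
    push Not at hcon
    have : II c T = ∅ := by
      rw [hIIe]
      exact Finset.Ioc_eq_empty (by omega)
    rw [this] at hk
    simp at hk
    linarith
  have hm0c : c * T ≤ m₀ := by
    rw [hm₀]
    push_cast
    exact (Nat.lt_floor_add_one (c * T)).le
  have hm1T : (m₁ : ℝ) + 1 ≤ T := by
    have h1 : 1 ≤ ⌊T⌋₊ := Nat.le_floor (by simpa using hT1.le)
    have h2 := Nat.floor_le hT0.le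
    have h3 : m₁ + 1 = ⌊T⌋₊ := by omega
    have h4 : ((m₁ + 1 : ℕ) : ℝ) = ⌊T⌋₊ := by exact_mod_cast h3
    push_cast at h4
    linarith
  have hsum := sum_le_int (g := fun τ => τ * Gw τ α β)
    (F := fun n => l ^ 2 * (JQ n (α + Real.log n) (β + Real.log n - 1) - ε / 4)) hm01
    (fun x y hx hy => tGw_ii hm hαβ (by linarith) (by linarith)) (fun n hn => by
      rw [← hIIe] at hn
      have h1 := hpt n hn
      obtain ⟨n1, n2⟩ := II_mem hT0.le hn
      have h2 : ∫ x in ((n : ℝ) - 1)..n,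
          l ^ 2 * (JQ n (α + Real.log n) (β + Real.log n - 1) - ε / 4) ≤
          ∫ τ in ((n : ℝ) - 1)..n, τ * Gw τ α β :=
        intervalIntegral.integral_mono_on (by linarith) (by simp)
          (tGw_ii hm hαβ (by linarith) (by linarith)) h1
      rw [intervalIntegral.integral_const, smul_eq_mul] at h2
      have e : (n : ℝ) - (n - 1) = 1 := by ring
      rw [e, one_mul] at h2
      exact h2)
  have hext : ∫ x in (m₀ : ℝ)..m₁, x * Gw x α β ≤ ∫ τ in (c * T - 1 / 2)..(T - 1 / 2), τ * Gw τ α β := by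
    have hm01' : (m₀ : ℝ) ≤ m₁ := by exact_mod_cast hm01
    refine intervalIntegral.integral_mono_interval (by linarith) hm01' (by linarith) ?_
      (tGw_ii hm hαβ (by linarith) (by linarith))
    refine (ae_restrict_mem measurableSet_Ioc).mono fun τ hτ => ?_
    have : 0 < τ := by linarith [hτ.1]
    exact mul_nonneg this.le (Gw_nonneg τ hαβ)
  have hW2 : ∫ τ in (c * T - 1 / 2)..(T - 1 / 2), τ * Gw τ α β =
      (1 - c) * T * L ^ 2 * W c T p q := by
    rw [hform]
    have h1 : 0 < 1 - c := by linarith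
    field_simp
  rw [hW2] at hext
  have hWle := mul_le_mul_of_nonneg_left hWT (show 0 ≤ (1 - c) * T * L ^ 2 by
    have : 0 < 1 - c := by linarith
    positivity)
  rw [← hIIe, ← Finset.mul_sum, Finset.sum_sub_distrib, Finset.sum_const, nsmul_eq_mul, ← hk] at hsum
  obtain ⟨A, hA⟩ : ∃ A : ℝ, A = ∑ n ∈ II c T, JQ n (α + Real.log n) (β + Real.log n - 1) :=
    ⟨_, rfl⟩
  rw [← hA] at hsum
  unfold av
  rw [← hA, ← hk]
  -- combine
  have h1 : l ^ 2 * (A - k * (ε / 4)) ≤ (1 - c) * T * L ^ 2 * (q - p + ε / 4) :=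
    hsum.trans (hext.trans hWle)
  have h2 : (1 - c) * T * L ^ 2 ≤ (1 + ε / 4 / (q - p + ε / 4)) * (k * l ^ 2) := by
    have h3 : (1 - c) * T * L ^ 2 = (1 - c) * T / k * (L / l) ^ 2 * (k * l ^ 2) := by
      field_simp
    rw [h3]
    exact mul_le_mul_of_nonneg_right hρ.le (by positivity)
  have hqpε : 0 < q - p + ε / 4 := by linarith
  have hD : (1 + ε / 4 / (q - p + ε / 4)) * (q - p + ε / 4) = q - p + ε / 4 + ε / 4 := by
    rw [add_mul, one_mul, div_mul_cancel₀ _ hqpε.ne']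
  have h3 : l ^ 2 * (A - k * (ε / 4)) ≤ l ^ 2 * (k * (q - p + ε / 4 + ε / 4)) := by
    calc l ^ 2 * (A - k * (ε / 4)) ≤ (1 - c) * T * L ^ 2 * (q - p + ε / 4) := h1
      _ ≤ (1 + ε / 4 / (q - p + ε / 4)) * (k * l ^ 2) * (q - p + ε / 4) :=
          mul_le_mul_of_nonneg_right h2 hqpε.le
      _ = l ^ 2 * (k * ((1 + ε / 4 / (q - p + ε / 4)) * (q - p + ε / 4))) := by ring
      _ = _ := by rw [hD]
  have h4 := le_of_mul_le_mul_left h3 (by positivity)
  rw [div_le_iff₀ hk0]
  nlinarith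

end Pool.Agent.NH10.FH
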